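import Pool.Agent.Helper81.LT.Defs
import Pool.Agent.Helper81.AT.Defs

/-!
Project L2 (MP_b8862a_ag): Hodge structures of level two, modules which are not self-dual. Definitions for type `A`.
-/

set_option linter.unusedSectionVars false

open Module PF TF PW AT

namespace L2

/-- The exceptional triples of type `A` (modules of `SL_m` which are not self-dual):
`1` exterior square of `ℂ^j ⊕ ℂ^k`; `2` symmetric square; `3` exterior powers of `ℂ^2 ⊕ ℂ^M`; `4` exterior powers of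
`ℂ ⊕ ℂ^M ⊕ ℂ`; `5` exterior powers of `ℂ ⊕ ℂ^M` (two levels); `6`, `7` the Cartan products of `Λ^(j+1)` and `Λ^(i+1)` for
`ℂ ⊕ ℂ^M` (`i = 0` in `6`). -/
def ExcA (a b c : ℕ) : Prop :=
  (∃ j k, 5 ≤ j + k ∧ a = j.choose 2 ∧ b = j * k ∧ c = k.choose 2) ∨
  (∃ j k, 3 ≤ j + k ∧ a = (j + 1).choose 2 ∧ b = j * k ∧ c = (k + 1).choose 2) ∨
  (∃ M i, i + 2 ≤ M ∧ M ≠ 2 * i + 2 ∧ a = M.choose i ∧ b = 2 * M.choose (i + 1) ∧ c = M.choose (i + 2)) ∨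
  (∃ M i, i + 2 ≤ M ∧ M ≠ 2 * i + 2 ∧ a = M.choose (i + 1) ∧ b = M.choose i + M.choose (i + 2) ∧ c = M.choose (i + 1)) ∨
  (∃ M i, 1 ≤ i ∧ i + 2 ≤ M ∧ M ≠ 2 * i + 1 ∧ a = M.choose i ∧ b = 0 ∧ c = M.choose (i + 1)) ∨
  (∃ M j, j + 1 ≤ M ∧ j + 1 ≠ M ∧ a = M.choose j ∧ b = M * M.choose j ∧ c + M.choose (j + 2) = M * M.choose (j + 1)) ∨
  (∃ M i j, i ≤ j ∧ j + 2 ≤ M ∧ i + j + 3 ≠ M ∧
    a + M.choose (j + 2) * M.choose i = M.choose (j + 1) * M.choose (i + 1) ∧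
    b + M.choose (j + 3) * M.choose i = M.choose (j + 1) * M.choose (i + 2) ∧
    c + M.choose (j + 3) * M.choose (i + 1) = M.choose (j + 2) * M.choose (i + 2))

variable {E : Type*} [NormedAddCommGroup E] [InnerProductSpace ℝ E]

/-- The data of project L2 for a module which is not self-dual: `a`, `b`, `c` are the multiplicities of the levels
`t + 1`, `t`, `t - 1` of `y`, `(a + b + c) t = c - a`, `a` and `c` are positive (`b` may be zero: two levels). -/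
structure DU (Φ X : Finset E) (a b c : ℕ) (l y v : E) : Prop extends Wd' Φ X (a + b + c) l v where
  a_pos : 0 < a
  c_pos : 0 < c
  top : LT.Top Φ X l v
  ydom : ∀ r ∈ Ps Φ v, 0 ≤ (inner ℝ y r : ℝ)
  y_mem : y ∈ Submodule.span ℝ (Φ : Set E)
  lev : ∀ r ∈ Φ, ∃ k : ℤ, (inner ℝ r y : ℝ) = k
  ly : ((a : ℝ) + b + c) * inner ℝ l y = b + 2 * c
  low : ∃ x ∈ X, (inner ℝ x y : ℝ) = inner ℝ l y - 2
  ge : ∀ x ∈ X, (inner ℝ l y : ℝ) - 2 ≤ inner ℝ x y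
  idt : ((a : ℝ) + b + c) ^ 2 * cas Φ l * inner ℝ y y =
    (((a : ℝ) + b + c) * (a + c) - ((a : ℝ) - c) ^ 2) * (finrank ℝ (Submodule.span ℝ (Φ : Set E)) + Φ.card)
  nsd : -l ∉ X

end L2
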