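import Pool.Agent.Helper14.L2.Red
import Pool.Agent.Helper2.LT.Dom
import Pool.Agent.Helper81.AT.Main

/-!
Project L2 (MP_b8862a_ag): a Weyl conjugate of the grading element is dominant; rescaling.
-/

set_option linter.unusedSectionVars false
set_option linter.unusedVariables false

open Module PF TF PW AT

namespace L2

variable {E : Type*} [NormedAddCommGroup E] [InnerProductSpace ℝ E] {Φ X : Finset E} {a b c : ℕ} {l y v : E}

/-- The data before the choice of a dominant grading element. -/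
structure DP (Φ X : Finset E) (a b c : ℕ) (l y v : E) : Prop extends Wd' Φ X (a + b + c) l v where
  a_pos : 0 < a
  c_pos : 0 < c
  top : LT.Top Φ X l v
  y_mem : y ∈ Submodule.span ℝ (Φ : Set E)
  lev : ∀ r ∈ Φ, ∃ k : ℤ, (inner ℝ r y : ℝ) = k
  hi : ∃ x ∈ X, ((a : ℝ) + b + c) * inner ℝ x y = b + 2 * c
  lo : ∃ x ∈ X, ((a : ℝ) + b + c) * inner ℝ x y = b + 2 * c - 2 * (a + b + c)
  le : ∀ x ∈ X, ((a : ℝ) + b + c) * inner ℝ x y ≤ b + 2 * c
  ge : ∀ x ∈ X, (b : ℝ) + 2 * c - 2 * (a + b + c) ≤ ((a : ℝ) + b + c) * inner ℝ x y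
  idt : ((a : ℝ) + b + c) ^ 2 * cas Φ l * inner ℝ y y =
    (((a : ℝ) + b + c) * (a + c) - ((a : ℝ) - c) ^ 2) * (finrank ℝ (Submodule.span ℝ (Φ : Set E)) + Φ.card)
  nsd : -l ∉ X

/-- the reflection of the grading element -/
theorem DP.refl (h : DP Φ X a b c l y v) {r : E} (hr : r ∈ Φ) : DP Φ X a b c l (y - co r y • r) v := by
  have hnr := h.rs.neg_mem hr
  have ha0 : (inner ℝ r r : ℝ) ≠ 0 := inner_self_ne_zero.2 (h.rs.ne_zero r hr)
  have hco : co r (y - co r y • r) = -co r y := by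
    unfold co
    rw [inner_sub_left, inner_smul_left]
    simp only [conj_trivial]
    field_simp
    ring
  have hcx : ∀ x : E, co r (x - co r x • r) = -co r x := by
    intro x
    unfold co
    rw [inner_sub_left, inner_smul_left]
    simp only [conj_trivial]
    field_simp
    ring
  have hback : ∀ x : E, (inner ℝ (x - co r x • r) (y - co r y • r) : ℝ) = inner ℝ x y := by
    intro x
    rw [LT.refl_inner, hco]
    congr 1
    module
  refine { toWd' := h.toWd', a_pos := h.a_pos, c_pos := h.c_pos, top := h.top, y_mem := ?_, lev := ?_, hi := ?_, lo := ?_,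
           le := ?_, ge := ?_, idt := ?_, nsd := h.nsd }
  · exact Submodule.sub_mem _ h.y_mem (Submodule.smul_mem _ _ (Submodule.subset_span (Finset.mem_coe.2 hr)))
  · intro s hs
    obtain ⟨k, hk⟩ := h.lev _ (h.rs.refl r hr s hs)
    refine ⟨k, ?_⟩
    rw [← LT.refl_inner, hk]
  · obtain ⟨x, hx, h1⟩ := h.hi
    exact ⟨_, refl14 h.sat hr hnr hx, by rw [hback, h1]⟩
  · obtain ⟨x, hx, h1⟩ := h.lo
    exact ⟨_, refl14 h.sat hr hnr hx, by rw [hback, h1]⟩
  · intro x hx
    rw [← LT.refl_inner]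
    exact h.le _ (refl14 h.sat hr hnr hx)
  · intro x hx
    rw [← LT.refl_inner]
    exact h.ge _ (refl14 h.sat hr hnr hx)
  · rw [hback, h.idt]

/-- the product with the sum of the positive roots is an integer -/
theorem DP.int_v (h : DP Φ X a b c l y v) : ∃ k : ℤ, (inner ℝ v y : ℝ) = k := by
  classical
  rw [h.v_eq, sum_inner]
  have h1 : ∀ r ∈ Ps Φ v, ∃ k : ℤ, (inner ℝ r y : ℝ) = k := fun r hr => h.lev r (Finset.mem_filter.1 hr).1
  choose! k hk using h1
  exact ⟨∑ r ∈ Ps Φ v, k r, by rw [Finset.sum_congr rfl hk]; push_cast; rfl⟩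

/-- a Weyl conjugate of `y` is dominant -/
theorem DP.exists_du (h : DP Φ X a b c l y v) : ∃ y', DU Φ X a b c l y' v := by
  classical
  obtain ⟨k0, hk0⟩ := h.int_v
  obtain ⟨m, ⟨y', hy', hyy, hm⟩, hmax⟩ := Int.exists_greatest_of_bdd
    (P := fun k : ℤ => ∃ y', DP Φ X a b c l y' v ∧ ‖y'‖ = ‖y‖ ∧ (inner ℝ v y' : ℝ) = k)
    ⟨⌈‖v‖ * ‖y‖⌉, fun k ⟨y', _, h2, h3⟩ => by
      have h4 := real_inner_le_norm v y'
      rw [h3, h2] at h4
      exact_mod_cast h4.trans (Int.le_ceil _)⟩ ⟨k0, y, h, rfl, hk0⟩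
  have hdom : ∀ r ∈ Ps Φ v, 0 ≤ (inner ℝ y' r : ℝ) := by
    intro r hr
    by_contra hneg
    push Not at hneg
    obtain ⟨hr1, hr2⟩ := Finset.mem_filter.1 hr
    have h1 := hy'.refl hr1
    obtain ⟨k1, hk1⟩ := h1.int_v
    have haa : (0 : ℝ) < inner ℝ r r := real_inner_self_pos.2 (h.rs.ne_zero r hr1)
    have h2 := hmax k1 ⟨_, h1, by
      rw [← hyy, ← sq_eq_sq₀ (norm_nonneg _) (norm_nonneg _), ← real_inner_self_eq_norm_sq, ← real_inner_self_eq_norm_sq,
        LT.refl_inner]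
      congr 1
      have h3 : co r (y' - co r y' • r) = -co r y' := by
        unfold co
        rw [inner_sub_left, inner_smul_left]
        simp only [conj_trivial]
        field_simp
        ring
      rw [h3]
      module, hk1⟩
    have h3 : (k1 : ℝ) ≤ m := by exact_mod_cast h2
    rw [← hk1, ← hm, inner_sub_right, inner_smul_right] at h3
    have h4 : co r y' < 0 := by
      unfold co
      exact div_neg_of_neg_of_pos (by linarith) haa
    have h5 : co r y' * (inner ℝ v r : ℝ) < 0 := mul_neg_of_neg_of_pos h4 hr2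
    linarith
  have hN : (0 : ℝ) < (a : ℝ) + b + c := by
    have h1 : (0 : ℝ) < a := by exact_mod_cast h.a_pos
    positivity
  have hly : ((a : ℝ) + b + c) * inner ℝ l y' = b + 2 * c := by
    refine le_antisymm (hy'.le l h.l_mem) ?_
    obtain ⟨x, hx, h1⟩ := hy'.hi
    rw [← h1]
    exact mul_le_mul_of_nonneg_left (h.top y' hdom x hx) hN.le
  refine ⟨y', h.toWd', h.a_pos, h.c_pos, h.top, hdom, hy'.y_mem, hy'.lev, hly, ?_, ?_, hy'.idt, h.nsd⟩
  · obtain ⟨x, hx, h1⟩ := hy'.lo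
    refine ⟨x, hx, mul_left_cancel₀ hN.ne' ?_⟩
    rw [h1, mul_sub, hly]
    ring
  · intro x hx
    refine le_of_mul_le_mul_left ?_ hN
    rw [mul_sub, hly]
    have := hy'.ge x hx
    linarith

section sc

variable {k : ℝ} (hk : 0 < k)

include hk

theorem DU.sc (h : DU Φ X a b c l y v) : DU (PF.sc k Φ) (PF.sc k X) a b c (k • l) (k⁻¹ • y) (k • v) := by
  classical
  have hkk : (0 : ℝ) < k * k := mul_pos hk hk
  have hin : ∀ x z : E, (inner ℝ (k • x) (k⁻¹ • z) : ℝ) = inner ℝ x z := by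
    intro x z
    rw [inner_smul_left, inner_smul_right]
    simp only [conj_trivial]
    rw [← mul_assoc, mul_inv_cancel₀ hk.ne', one_mul]
  refine { toWd' := AT.Wd'.sc hk h.toWd', a_pos := h.a_pos, c_pos := h.c_pos, top := ?_, ydom := ?_, y_mem := ?_,
           lev := ?_, ly := ?_, low := ?_, ge := ?_, idt := ?_, nsd := ?_ }
  · intro z hz x hx
    obtain ⟨x', hx', rfl⟩ := mem_sc.1 hx
    rw [inner_smul_left, inner_smul_left]
    simp only [conj_trivial]
    refine mul_le_mul_of_nonneg_left (h.top z ?_ x' hx') hk.le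
    intro r hr
    have h1 := hz (k • r) (by rw [Ps_sc hk]; exact (smul_mem_sc hk).2 hr)
    rw [inner_smul_right] at h1
    exact nonneg_of_mul_nonneg_right h1 hk
  · intro r hr
    rw [Ps_sc hk] at hr
    obtain ⟨r', hr', rfl⟩ := mem_sc.1 hr
    rw [real_inner_comm, hin, real_inner_comm]
    exact h.ydom r' hr'
  · rw [TF.span_sc hk]
    exact Submodule.smul_mem _ _ h.y_mem
  · intro r hr
    obtain ⟨r', hr', rfl⟩ := mem_sc.1 hr
    obtain ⟨j, hj⟩ := h.lev r' hr'
    exact ⟨j, by rw [hin, hj]⟩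
  · rw [hin]
    exact h.ly
  · obtain ⟨x, hx, h1⟩ := h.low
    exact ⟨k • x, (smul_mem_sc hk).2 hx, by rw [hin, hin, h1]⟩
  · intro x hx
    obtain ⟨x', hx', rfl⟩ := mem_sc.1 hx
    rw [hin, hin]
    exact h.ge x' hx'
  · rw [cas_sc hk, TF.span_sc hk, card_sc hk, ← h.idt, inner_smul_left, inner_smul_right]
    simp only [conj_trivial]
    have := hk.ne'
    field_simp
  · rw [← smul_neg, smul_mem_sc hk]
    exact h.nsd

end sc

end L2
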