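import Pool.Agent.Helper98.AT.Form
import Pool.Agent.Helper55.L2.Lie
import Pool.Agent.Helper55.L2.W0

/-!
Project L2 (MP_b8862a_ag): an irreducible module such that the opposite of the highest weight is a weight is self-dual.
-/

set_option linter.unusedSectionVars false
set_option linter.unusedVariables false

open Module LieModule LieAlgebra LieAlgebra.IsKilling MTP.MF PF PF.CC PF.W PW AT

attribute [local instance 100] LieRing.ofAssociativeRing

namespace L2

section euclid

variable {E : Type*} [NormedAddCommGroup E] [InnerProductSpace ℝ E] {Φ X : Finset E} {v : E}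

/-- an isometry which makes the positive roots negative changes the sign of the sum over the positive coroots -/
theorem sum_co_neg {f : E →ₗ[ℝ] E} (hf : WG Φ X f) (hneg : ∀ r ∈ Ps Φ v, -f r ∈ Ps Φ v) (x : E) :
    ∑ r ∈ Ps Φ v, co r (f x) = -∑ r ∈ Ps Φ v, co r x := by
  classical
  have hinj : Set.InjOn (fun r => -f r) (Ps Φ v : Set E) := fun r _ s _ h => hf.inj (neg_injective h)
  have h1 : (Ps Φ v).image (fun r => -f r) = Ps Φ v := by
    apply Finset.eq_of_subset_of_card_le
    · intro r hr
      obtain ⟨s, hs, rfl⟩ := Finset.mem_image.1 hr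
      exact hneg s hs
    · rw [Finset.card_image_of_injOn hinj]
  conv_lhs => rw [← h1]
  rw [Finset.sum_image hinj, ← Finset.sum_neg_distrib]
  refine Finset.sum_congr rfl fun r _ => ?_
  unfold co
  rw [inner_neg_right, inner_neg_neg, hf.inn, hf.inn]
  ring

end euclid

variable {K : Type*} [Field K] [CharZero K] [IsAlgClosed K]
  {L : Type*} [LieRing L] [LieAlgebra K L] [FiniteDimensional K L] [IsKilling K L]
  {H : LieSubalgebra K L} [H.IsCartanSubalgebra]
  {V : Type*} [AddCommGroup V] [Module K V] [FiniteDimensional K V]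
  [LieRingModule L V] [LieModule K L V] {I : Type*} [Fintype I]

/-- **The opposite of the highest weight is a weight: the module is self-dual.** -/
theorem exists_form3 (B : WB (V := V) H I) [Nonempty I] [Nonempty H.root] [(rootSystem H).IsIrreducible]
    (hirr : ∀ W : Submodule K V, (∀ x : L, ∀ u ∈ W, ⁅x, u⁆ ∈ W) → W = ⊥ ∨ W = ⊤)
    (hfaith : ∀ x : L, (∀ u : V, ⁅x, u⁆ = 0) → x = 0) (b : (rootSystem H).Base) {t : I}
    (htb : ∀ i, Below b (B.w t) (B.w i)) (hneg : -PF.CC.vec (PF.CC.wt B t) ∈ PF.CC.Xw B) :
    ∃ ω : LinearMap.BilinForm K V, (ω.IsSymm ∨ ω.IsAlt) ∧ ω.Nondegenerate ∧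
      ∀ (x : L) (u v : V), ω ⁅x, u⁆ v = - ω u ⁅x, v⁆ := by
  classical
  obtain ⟨s, hs⟩ : ∃ s, B.w s = - B.w t := by
    obtain ⟨j, hj⟩ := (mem_Xw B).1 hneg
    rw [← vec_neg] at hj
    have h1 := vec_inj hj
    refine ⟨j, dual_ext fun α => ?_⟩
    rw [wt_spec, h1, LinearMap.neg_apply, wt_spec]
    simp
  obtain ⟨c, hcd⟩ : ∃ c : I → ℤ, c = fun i => ∑ α with b.IsPos α, wt B i α := ⟨_, rfl⟩
  have hc : ∀ i, B.w i (rho2 b) = (c i : K) := by
    intro i
    rw [hcd]
    unfold rho2
    rw [map_sum]
    push_cast
    refine Finset.sum_congr rfl fun α _ => ?_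
    rw [← wt_spec]
    rfl
  have ht : ∀ j ∈ (Finset.univ : Finset I), c j ≤ c t := by
    intro j _
    obtain ⟨κ, hκ⟩ := htb j
    have h1 : ((c j : ℤ) : K) = ((c t - ∑ i ∈ b.support, (κ i : ℤ) * (2 * b.height i) : ℤ) : K) := by
      rw [← hc, hκ, LinearMap.sub_apply, hc, LinearMap.sum_apply]
      push_cast
      congr 1
      refine Finset.sum_congr rfl fun i _ => ?_
      have h2 := root_rho b i
      rw [LinearMap.smul_apply, smul_eq_mul]
      congr 1
    have h2 : c j = c t - ∑ i ∈ b.support, (κ i : ℤ) * (2 * b.height i) := by exact_mod_cast h1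
    have h3 : 0 ≤ ∑ i ∈ b.support, (κ i : ℤ) * (2 * b.height i) := by
      refine Finset.sum_nonneg fun i hi => mul_nonneg (by positivity) ?_
      have h4 : 0 < b.height i := RootPairing.Base.isPos_of_mem_support hi
      omega
    omega
  have hcs : c s = - c t := by
    have h1 : ((c s : ℤ) : K) = ((- c t : ℤ) : K) := by
      rw [← hc, hs, LinearMap.neg_apply, hc]
      push_cast
      rfl
    exact_mod_cast h1
  have hmin : ∀ i, c s ≤ c i := by
    obtain ⟨k', v, -, hPs, hwd⟩ := exists_wd3_b b B hirr hfaith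
    obtain ⟨f, hf, hfn⟩ := exists_w0 hwd.rs hwd.sat hwd.reg hwd.v_eq
    have hinj : Set.InjOn (fun α : H.root => vec (PF.CC.rt (rootSystem H) α)) (pos b : Set H.root) :=
      fun α _ β _ h => rt_inj (rootSystem H) (vec_inj h)
    have hsum : ∀ i, ∑ r ∈ Ps (PF.CC.Ph (rootSystem H)) v, co r (PF.CC.vec (PF.CC.wt B i)) = (c i : ℝ) := by
      intro i
      rw [hPs, Finset.sum_image hinj, Finset.sum_congr rfl fun α _ => co_vec _ (wt_wt B i) α, hcd]
      push_cast
      rfl
    intro i
    obtain ⟨j, hj⟩ := (mem_Xw B).1 (hf.sat _ ((mem_Xw B).2 ⟨i, rfl⟩))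
    have h1 := sum_co_neg hf hfn (PF.CC.vec (PF.CC.wt B i))
    rw [← hj, hsum, hsum] at h1
    have h2 : c j = -c i := by exact_mod_cast h1
    have h3 := ht j (Finset.mem_univ j)
    omega
  -- coordinates of a root vector applied to a basis vector
  have hroot : ∀ (α : H.root) (x : L), x ∈ rootSpace H α.1 → ∀ i j, B.v.repr ⁅x, B.v i⁆ j ≠ 0 →
      c j = 2 * b.height α + c i := by
    intro α x hx i j hj
    have h1 := B.coord_root hx hj (rho2 b)
    rw [hc, hc, root_rho] at h1
    have : ((c j : ℤ) : K) = ((2 * b.height α + c i : ℤ) : K) := by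
      rw [h1]; push_cast; ring
    exact Int.cast_injective this
  -- the vector
  let fs : V →ₗ[K] K := B.v.coord s
  obtain ⟨M, hM1, hM2, hM3⟩ := stable_of_top (rhoD (L := L) (V := V)) b (v := (B.v t, fs))
    (χ := B.w t) (by
      intro h
      rw [rhoD_apply]
      have h1 : ⁅(h : L), fs⁆ = B.w t h • fs := by
        refine B.v.ext fun i => ?_
        rw [Module.Dual.lie_apply, B.lie_v, map_smul, LinearMap.smul_apply]
        by_cases his : i = s
        · rw [his, hs, LinearMap.neg_apply, neg_smul, neg_neg]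
        · have : fs (B.v i) = 0 := by
            simp [fs, his]
          rw [this]
          simp
      rw [h1, B.lie_v]
      rfl) (by
      intro α hα x hx
      rw [rhoD_apply]
      have hh : 0 < b.height α := hα
      have h1 : ⁅x, B.v t⁆ = 0 := by
        apply B.v.repr.injective
        rw [map_zero]
        ext j
        by_contra hj
        have h2 := hroot α x hx t j hj
        have h3 := ht j (Finset.mem_univ j)
        omega
      have h2 : ⁅x, fs⁆ = 0 := by
        refine B.v.ext fun i => ?_
        rw [Module.Dual.lie_apply, LinearMap.zero_apply, neg_eq_zero]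
        by_contra hj
        have h3 := hroot α x hx i s hj
        have h4 := hmin i
        omega
      rw [h1, h2]
      rfl) (N :=
      { carrier := {p | B.v.repr p.1 t = p.2 (B.v s)}
        add_mem' := by
          intro p q hp hq
          simp only [Set.mem_ofPred_eq, Prod.fst_add, Prod.snd_add, map_add, Finsupp.add_apply,
            LinearMap.add_apply] at *
          rw [hp, hq]
        zero_mem' := by simp
        smul_mem' := by
          intro k p hp
          simp only [Set.mem_ofPred_eq, Prod.smul_fst, Prod.smul_snd, map_smul, Finsupp.smul_apply,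
            LinearMap.smul_apply] at *
          rw [hp] }) (by
      change B.v.repr (B.v t) t = fs (B.v s)
      simp [fs]) (by
      intro α hα x hx p _
      change B.v.repr ⁅x, p.1⁆ t = ⁅x, p.2⁆ (B.v s)
      have h4 : ¬ 0 < b.height α := hα
      have h5 := b.height_ne_zero α
      have h1 : B.v.repr ⁅x, p.1⁆ t = 0 := by
        have e : p.1 = ∑ j, B.v.repr p.1 j • B.v j := (B.v.sum_repr _).symm
        rw [e, lie_sum, map_sum, Finsupp.finsetSum_apply]
        refine Finset.sum_eq_zero fun j _ => ?_
        rw [lie_smul, map_smul, Finsupp.smul_apply, smul_eq_mul]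
        by_cases hj : B.v.repr ⁅x, B.v j⁆ t = 0
        · rw [hj, mul_zero]
        · exfalso
          have h2 := hroot α x hx j t hj
          have h3 := ht j (Finset.mem_univ j)
          omega
      have h2 : ⁅x, B.v s⁆ = 0 := by
        apply B.v.repr.injective
        rw [map_zero]
        ext j
        by_contra hj
        have h2 := hroot α x hx s j hj
        have h3 := hmin j
        omega
      rw [h1, Module.Dual.lie_apply, h2, map_zero, neg_zero])
  have hM2' : ∀ p ∈ M, B.v.repr p.1 t = p.2 (B.v s) := fun p hp => hM2 hp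
  -- the first projection is onto
  have hp1 : ∀ u : V, ∃ f, (u, f) ∈ M := by
    rcases hirr (M.map (LinearMap.fst K V (V →ₗ[K] K))) (by
      rintro x _ ⟨p, hp, rfl⟩
      exact ⟨rhoD x p, hM3 x p hp, rfl⟩) with h | h
    · exfalso
      have h1 : B.v t ∈ M.map (LinearMap.fst K V (V →ₗ[K] K)) := ⟨_, hM1, rfl⟩
      rw [h, Submodule.mem_bot] at h1
      exact B.v.ne_zero t h1
    · intro u
      have h1 : u ∈ M.map (LinearMap.fst K V (V →ₗ[K] K)) := by rw [h]; trivial
      obtain ⟨⟨u', f⟩, hf, rfl⟩ := h1
      exact ⟨f, hf⟩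
  -- the first projection is one-to-one
  have hp2 : ∀ f, ((0 : V), f) ∈ M → f = 0 := by
    let Z : Submodule K V :=
      { carrier := {u | ∀ f, ((0 : V), f) ∈ M → f u = 0}
        add_mem' := by
          intro u w hu hw f hf
          rw [map_add, hu f hf, hw f hf, add_zero]
        zero_mem' := by
          intro f _
          exact map_zero f
        smul_mem' := by
          intro k u hu f hf
          rw [map_smul, hu f hf, smul_zero] }
    have hZ : ∀ x : L, ∀ u ∈ Z, ⁅x, u⁆ ∈ Z := by
      intro x u hu f hf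
      have h1 := hM3 x _ hf
      rw [rhoD_apply, lie_zero] at h1
      have h2 := hu _ h1
      rw [Module.Dual.lie_apply, neg_eq_zero] at h2
      exact h2
    rcases hirr Z hZ with h | h
    · exfalso
      -- every functional would occur
      let Q : Submodule K (V →ₗ[K] K) := M.comap (LinearMap.inr K V (V →ₗ[K] K))
      have hQ : Q.dualCoannihilator = ⊥ := by
        rw [eq_bot_iff, ← h]
        intro u hu f hf
        rw [Submodule.mem_dualCoannihilator] at hu
        exact hu f hf
      have hQ' : Q = ⊤ := by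
        have h1 := Subspace.dualCoannihilator_dualAnnihilator_eq (W := Q)
        rw [hQ, Submodule.dualAnnihilator_bot] at h1
        exact h1.symm
      have h1 : fs ∈ Q := by rw [hQ']; trivial
      have h2 : ((0 : V), fs) ∈ M := h1
      have h3 := hM2' _ h2
      simp [fs] at h3
    · intro f hf
      ext u
      have h1 : u ∈ Z := by rw [h]; trivial
      exact h1 f hf
  choose g hg using hp1
  have hgu : ∀ u f, (u, f) ∈ M → f = g u := by
    intro u f hf
    have h1 := M.sub_mem hf (hg u)
    rw [Prod.mk_sub_mk, sub_self] at h1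
    exact sub_eq_zero.1 (hp2 _ h1)
  let φ : LinearMap.BilinForm K V :=
    { toFun := g
      map_add' := by
        intro u w
        refine (hgu _ _ ?_).symm
        exact M.add_mem (hg u) (hg w)
      map_smul' := by
        intro k u
        refine (hgu _ _ ?_).symm
        exact M.smul_mem k (hg u) }
  have hφ : ∀ (x : L) (u v : V), φ ⁅x, u⁆ v = - φ u ⁅x, v⁆ := by
    intro x u v
    have h1 := hgu _ _ (hM3 x _ (hg u))
    have h2 : φ ⁅x, u⁆ = ⁅x, g u⁆ := h1.symm
    rw [h2, Module.Dual.lie_apply]
    rfl
  have h0 : φ ≠ 0 := by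
    intro h
    have h1 : g (B.v t) = fs := (hgu _ _ hM1).symm
    have h2 : φ (B.v t) = fs := h1
    rw [h] at h2
    have h3 := congrArg (fun f : V →ₗ[K] K => f (B.v s)) h2
    simp [fs] at h3
  obtain ⟨h1, h2⟩ := symm_or_alt hirr φ h0 hφ
  exact ⟨φ, h1, h2, hφ⟩

end L2
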