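import Pool.Agent.Helper14.L2.TypeA
import Pool.Agent.Helper14.L2.Dom
import Pool.Agent.Helper81.L2.E6U
import Pool.Agent.Helper81.LT.Cls
import Pool.Agent.Helper43.L2.Defs
import Pool.Agent.Helper98.L2.TypeDU
import Pool.Agent.Helper81.L2.Neg

/-!
Project L2 (MP_b8862a_ag): the list for the modules which are not self-dual.
-/

set_option linter.unusedSectionVars false
set_option linter.unusedVariables false

open Module PF TF PW AT

namespace L2

/-- **The list.** -/
theorem listU {E : Type*} [NormedAddCommGroup E] [InnerProductSpace ℝ E] {a b c : ℕ} (hb : a ≠ c ∨ 0 < b)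
    {Φ X : Finset E} {l y v : E} (h : DU Φ X a b c l y v) : TypeS Φ X ∨ ExcU a b c := by
  obtain ⟨k, hk0, hNRS⟩ := exists_NRS h.rs
  have h' := h.sc hk0
  have hall : TypeS (PF.sc k Φ) (PF.sc k X) ∨ ExcU a b c := by
    rcases LT.classify hNRS with ⟨m, u, hm, hu⟩ | ⟨m, e, κ, d, hm1, hm2, hm0, he⟩ | ⟨u, z, hu⟩ | ⟨u, hu⟩ | ⟨u, hu⟩ |
      ⟨e, he⟩ | ⟨u, hu⟩
    · rcases typeAU h' hu hm with h3 | h3
      · exact Or.inl h3
      · exact Or.inr (Or.inl h3)
    · right
      rcases Nat.eq_zero_or_pos d with hd | hd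
      · subst hd
        rcases typeDU h' he (hm0 rfl) hb with h3 | h3 | ⟨t, ht, h3, h5, h6⟩ | ⟨M, i, h3, h5, h6⟩
        · exact Or.inr (Or.inl h3)
        · exact Or.inr (Or.inr (Or.inl h3))
        · refine Or.inr (Or.inr (Or.inr (Or.inr (Or.inr (Or.inr ⟨by omega, Or.inl (Or.inl ?_)⟩)))))
          omega
        · exact Or.inl (Or.inr (Or.inr (Or.inr (Or.inl ⟨M, i, h3, h5, h6⟩))))
      · exact (typeBCU h' he (by omega)).elim
    · right
      rcases typeE6U h' hu with h3 | h3 | h3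
      · exact Or.inr (Or.inr (Or.inr (Or.inl h3)))
      · exact Or.inr (Or.inr (Or.inr (Or.inr (Or.inl h3))))
      · exact Or.inr (Or.inr (Or.inr (Or.inr (Or.inr (Or.inl h3)))))
    · exact (h'.nsd (neg_mem_E7 h'.sat hu h'.l_mem)).elim
    · exact (h'.nsd (neg_mem_E8 h'.sat hu h'.l_mem)).elim
    · exact (typeF4U h' he).elim
    · exact (h'.nsd (neg_mem_G2 h'.sat hu h'.l_mem)).elim
  rcases hall with h1 | h1
  · exact Or.inl (AT.TypeS.of_sc hk0 h1)
  · exact Or.inr h1

end L2
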