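import Pool.Agent.Helper14.L2.Red

/-!
Project L2 (MP_b8862a_ag), type `A`: the numbers.
-/

set_option linter.unusedSectionVars false
set_option linter.unusedVariables false

open Module PF TF PW PX AT

namespace L2

/-- The numerical data: `A`, `B`, `C` the multiplicities, `Z / m` the value `(l, y)`, `K / m` the Casimir constant,
`Y / m` the norm of `y`. -/
structure Nm (A B C m : ℕ) (Z K Y : ℝ) : Prop where
  pos : 0 < A + B + C
  ly : (m : ℝ) * (B + 2 * C) = (A + B + C) * Z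
  cas : ((A : ℝ) + B + C) ^ 2 * (K * Y) = ((A + B + C) * (A + C) - ((A : ℝ) - C) ^ 2) * (m ^ 2 * ((m - 1) * (m + 1)))

theorem Nm.eq {A B C A0 B0 C0 m : ℕ} {Z K Y : ℝ} (hm : 2 ≤ m) (h : Nm A B C m Z K Y) (h0 : Nm A0 B0 C0 m Z K Y)
    (hn : A + B + C = A0 + B0 + C0) : A = A0 ∧ B = B0 ∧ C = C0 := by
  have hmr : (2 : ℝ) ≤ m := by exact_mod_cast hm
  have hn' : (A : ℝ) + B + C = A0 + B0 + C0 := by exact_mod_cast hn
  have hN : (0 : ℝ) < (A : ℝ) + B + C := by exact_mod_cast h.pos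
  have h1 : (B : ℝ) + 2 * C = B0 + 2 * C0 := by
    refine mul_left_cancel₀ (show (m : ℝ) ≠ 0 by positivity) ?_
    rw [h.ly, h0.ly, hn']
  have h2 : (A : ℝ) - C = A0 - C0 := by linarith
  have hD : (m : ℝ) ^ 2 * ((m - 1) * (m + 1)) ≠ 0 := by
    have : (0 : ℝ) < m - 1 := by linarith
    positivity
  have h3 : ((A : ℝ) + B + C) * (A + C) - ((A : ℝ) - C) ^ 2 = ((A0 : ℝ) + B0 + C0) * (A0 + C0) - ((A0 : ℝ) - C0) ^ 2 := by
    refine mul_right_cancel₀ hD ?_
    rw [← h.cas, ← h0.cas, hn']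
  rw [h2, ← hn'] at h3
  have h4 : ((A : ℝ) + C) = A0 + C0 := by
    refine mul_left_cancel₀ hN.ne' ?_
    linarith
  have e1 : (A : ℝ) = A0 := by linarith
  have e2 : (C : ℝ) = C0 := by linarith
  have e3 : (B : ℝ) = B0 := by linarith
  exact ⟨by exact_mod_cast e1, by exact_mod_cast e3, by exact_mod_cast e2⟩

/-- `C (M, j)`, `C (M, j + 1)`, `C (M, j + 2)` -/
theorem three14 {M j : ℕ} (h : j ≤ M) : ∃ x : ℝ, (M.choose j : ℝ) = (j + 1) * (j + 2) * x ∧
    (M.choose (j + 1) : ℝ) = (M - j) * (j + 2) * x ∧ (M.choose (j + 2) : ℝ) = (M - j) * (M - j - 1) * x ∧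
    ((M + 2).choose (j + 2) : ℝ) = (M + 1) * (M + 2) * x ∧ ((M + 1).choose (j + 1) : ℝ) = (M + 1) * (j + 2) * x ∧ 0 < x := by
  refine ⟨(M.choose j : ℝ) / ((j + 1) * (j + 2)), ?_, ?_, ?_, ?_, ?_, ?_⟩
  · field_simp
  · have h1 : (M.choose (j + 1) : ℝ) * (j + 1) = M.choose j * (M - j) := by
      have := Nat.choose_succ_right_eq M j
      have := congrArg (fun z : ℕ => (z : ℝ)) this
      push_cast [Nat.cast_sub h] at this
      exact this
    field_simp
    linear_combination h1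
  · have h1 : (M.choose (j + 1) : ℝ) * (j + 1) = M.choose j * (M - j) := by
      have := Nat.choose_succ_right_eq M j
      have := congrArg (fun z : ℕ => (z : ℝ)) this
      push_cast [Nat.cast_sub h] at this
      exact this
    have h2 : (M.choose (j + 2) : ℝ) * (j + 2) = M.choose (j + 1) * (M - j - 1) := by
      rcases Nat.lt_or_ge j M with h3 | h3
      · have := Nat.choose_succ_right_eq M (j + 1)
        have := congrArg (fun z : ℕ => (z : ℝ)) this
        push_cast [Nat.cast_sub (show j + 1 ≤ M by omega)] at this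
        linear_combination this
      · have e1 : M.choose (j + 2) = 0 := Nat.choose_eq_zero_of_lt (by omega)
        have e2 : M.choose (j + 1) = 0 := Nat.choose_eq_zero_of_lt (by omega)
        rw [e1, e2]
        push_cast
        ring
    field_simp
    linear_combination ((j : ℝ) + 1) * h2 + ((M : ℝ) - j - 1) * h1
  · have h1 : ((M + 2).choose (j + 2) : ℝ) * ((j + 1) * (j + 2)) = (M + 1) * (M + 2) * M.choose j := by
      have e1 := Nat.add_one_mul_choose_eq M j
      have e2 := Nat.add_one_mul_choose_eq (M + 1) (j + 1)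
      have e1' := congrArg (fun z : ℕ => (z : ℝ)) e1
      have e2' := congrArg (fun z : ℕ => (z : ℝ)) e2
      push_cast at e1' e2'
      have e3 : ((M + 2).choose (j + 2) : ℝ) = ((M + 1 + 1).choose (j + 1 + 1) : ℝ) := rfl
      rw [e3]
      linear_combination -((j : ℝ) + 1) * e2' - ((M : ℝ) + 2) * e1'
    field_simp
    linear_combination h1
  · have e1 := Nat.add_one_mul_choose_eq M j
    have e1' := congrArg (fun z : ℕ => (z : ℝ)) e1
    push_cast at e1'
    field_simp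
    linear_combination -e1'
  · have : 0 < M.choose j := Nat.choose_pos h
    positivity

/-- exterior square -/
theorem case1 {A B C p k : ℕ} (hp : 2 ≤ p) (hk : 2 ≤ k)
    (h : Nm A B C (p + k) ((p + k : ℕ) * 2 - 2 * p) ((p + k : ℕ) * (2 + 2 * ((p + k : ℕ) - 2)) - 2 ^ 2)
      ((p + k : ℕ) * p - p ^ 2))
    (hn : (A + B + C) * (p + k + 1) = 3 * (p + k + 1).choose 3) :
    A = p.choose 2 ∧ B = p * k ∧ C = k.choose 2 := by
  have h2 : ((p + k).choose 2 : ℝ) = (p + k) * (p + k - 1) / 2 := by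
    rw [Nat.cast_choose_two]
    push_cast
    ring
  have hn2 : A + B + C = (p + k).choose 2 := by
    have e1 := Nat.add_one_mul_choose_eq (p + k) 2
    have e2 : (p + k + 1) * (A + B + C) = (p + k + 1) * (p + k).choose 2 := by
      rw [e1, mul_comm, hn]
      ring
    exact Nat.eq_of_mul_eq_mul_left (by omega) e2
  have e0 : ((p.choose 2 + p * k + k.choose 2 : ℕ) : ℝ) = (((p + k).choose 2 : ℕ) : ℝ) := by
    push_cast
    rw [h2, Nat.cast_choose_two, Nat.cast_choose_two]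
    ring
  have e0' : p.choose 2 + p * k + k.choose 2 = (p + k).choose 2 := by exact_mod_cast e0
  refine h.eq (by omega) ⟨?_, ?_, ?_⟩ (by rw [hn2, e0'])
  · rw [e0']
    exact Nat.choose_pos (by omega)
  · rw [Nat.cast_choose_two, Nat.cast_choose_two]
    push_cast
    ring
  · rw [Nat.cast_choose_two, Nat.cast_choose_two]
    push_cast
    ring

/-- symmetric square -/
theorem case2 {A B C p k : ℕ} (hp : 1 ≤ p) (hk : 1 ≤ k)
    (h : Nm A B C (p + k) ((p + k : ℕ) * 2 - 2 * p) ((p + k : ℕ) * (4 + 2 * ((p + k : ℕ) - 1)) - 2 ^ 2)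
      ((p + k : ℕ) * p - p ^ 2))
    (hn : (A + B + C) * (p + k + 1) = (p + k + 1) * (p + k + 1).choose 2) :
    A = (p + 1).choose 2 ∧ B = p * k ∧ C = (k + 1).choose 2 := by
  have hn2 : A + B + C = (p + k + 1).choose 2 := by
    have e2 : (p + k + 1) * (A + B + C) = (p + k + 1) * (p + k + 1).choose 2 := by
      rw [← hn, mul_comm]
    exact Nat.eq_of_mul_eq_mul_left (by omega) e2
  have e0 : (((p + 1).choose 2 + p * k + (k + 1).choose 2 : ℕ) : ℝ) = (((p + k + 1).choose 2 : ℕ) : ℝ) := by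
    push_cast
    rw [Nat.cast_choose_two, Nat.cast_choose_two, Nat.cast_choose_two]
    push_cast
    ring
  have e0' : (p + 1).choose 2 + p * k + (k + 1).choose 2 = (p + k + 1).choose 2 := by exact_mod_cast e0
  refine h.eq (by omega) ⟨?_, ?_, ?_⟩ (by rw [hn2, e0'])
  · rw [e0']
    exact Nat.choose_pos (by omega)
  · rw [Nat.cast_choose_two, Nat.cast_choose_two]
    push_cast
    ring
  · rw [Nat.cast_choose_two, Nat.cast_choose_two]
    push_cast
    ring

/-- exterior powers, `y = ω_2` -/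
theorem case3 {A B C M i : ℕ} (hi : i + 2 ≤ M + 2) 
    (h : Nm A B C (M + 2) ((M + 2 : ℕ) * 2 - (i + 2 : ℕ) * 2)
      ((M + 2 : ℕ) * ((i + 2 : ℕ) + (i + 2 : ℕ) * ((M + 2 : ℕ) - (i + 2 : ℕ))) - (i + 2 : ℕ) ^ 2)
      ((M + 2 : ℕ) * 2 - 2 ^ 2))
    (hn : A + B + C = (M + 2).choose (i + 2)) :
    A = M.choose i ∧ B = 2 * M.choose (i + 1) ∧ C = M.choose (i + 2) := by
  obtain ⟨x, x0, x1, x2, x3, x4, hx⟩ := three14 (show i ≤ M by omega)
  have e0 : ((M.choose i + 2 * M.choose (i + 1) + M.choose (i + 2) : ℕ) : ℝ) = (((M + 2).choose (i + 2) : ℕ) : ℝ) := by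
    push_cast
    rw [x0, x1, x2, x3]
    ring
  have e0' : M.choose i + 2 * M.choose (i + 1) + M.choose (i + 2) = (M + 2).choose (i + 2) := by exact_mod_cast e0
  refine h.eq (by omega) ⟨?_, ?_, ?_⟩ (by rw [hn, e0'])
  · rw [e0']
    exact Nat.choose_pos (by omega)
  · push_cast
    rw [x0, x1, x2]
    ring
  · push_cast
    rw [x0, x1, x2]
    ring

/-- exterior powers, `y = ω_1 + ω_(m-1)` -/
theorem case4 {A B C M i : ℕ} (hi : i + 2 ≤ M + 2)
    (h : Nm A B C (M + 2) ((M + 2 : ℕ)) 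
      ((M + 2 : ℕ) * ((i + 2 : ℕ) + (i + 2 : ℕ) * ((M + 2 : ℕ) - (i + 2 : ℕ))) - (i + 2 : ℕ) ^ 2)
      (2 * (M + 2 : ℕ)))
    (hn : A + B + C = (M + 2).choose (i + 2)) :
    A = M.choose (i + 1) ∧ B = M.choose i + M.choose (i + 2) ∧ C = M.choose (i + 1) := by
  obtain ⟨x, x0, x1, x2, x3, x4, hx⟩ := three14 (show i ≤ M by omega)
  have e0 : ((M.choose (i + 1) + (M.choose i + M.choose (i + 2)) + M.choose (i + 1) : ℕ) : ℝ) =
      (((M + 2).choose (i + 2) : ℕ) : ℝ) := by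
    push_cast
    rw [x0, x1, x2, x3]
    ring
  have e0' : M.choose (i + 1) + (M.choose i + M.choose (i + 2)) + M.choose (i + 1) = (M + 2).choose (i + 2) := by
    exact_mod_cast e0
  refine h.eq (by omega) ⟨?_, ?_, ?_⟩ (by rw [hn, e0'])
  · rw [e0']
    exact Nat.choose_pos (by omega)
  · push_cast
    rw [x0, x1, x2]
    ring
  · push_cast
    rw [x0, x1, x2]
    ring

/-- exterior powers, `y = 2 ω_1` -/
theorem case5 {A B C M i : ℕ} (hi : i ≤ M)
    (h : Nm A B C (M + 1) ((M + 1 : ℕ) * 2 - (i + 1 : ℕ) * 2)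
      ((M + 1 : ℕ) * ((i + 1 : ℕ) + (i + 1 : ℕ) * ((M + 1 : ℕ) - (i + 1 : ℕ))) - (i + 1 : ℕ) ^ 2)
      ((M + 1 : ℕ) * 4 - 2 ^ 2))
    (hM : 1 ≤ M) (hn : A + B + C = (M + 1).choose (i + 1)) :
    A = M.choose i ∧ B = 0 ∧ C = M.choose (i + 1) := by
  obtain ⟨x, x0, x1, x2, x3, x4, hx⟩ := three14 (show i ≤ M by omega)
  have e0 : ((M.choose i + 0 + M.choose (i + 1) : ℕ) : ℝ) = (((M + 1).choose (i + 1) : ℕ) : ℝ) := by
    push_cast
    rw [x0, x1, x4]
    ring
  have e0' : M.choose i + 0 + M.choose (i + 1) = (M + 1).choose (i + 1) := by exact_mod_cast e0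
  refine h.eq (by omega) ⟨?_, ?_, ?_⟩ (by rw [hn, e0'])
  · rw [e0']
    exact Nat.choose_pos (by omega)
  · push_cast
    rw [x0, x1]
    ring
  · push_cast
    rw [x0, x1]
    ring

end L2
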