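import Pool.Agent.Helper14.L2.Num

/-!
Project L2 (MP_b8862a_ag), type `A`: the numbers of the Cartan products of exterior powers, `y = ω_1`.
-/

set_option linter.unusedSectionVars false
set_option linter.unusedVariables false

open Module PF TF PW PX AT

namespace L2

/-- `i = 0` -/
theorem case6 {A B C M j : ℕ} (hj : j ≤ M)
    (h : Nm A B C (M + 1) ((M + 1 : ℕ) * 2 - ((j + 1 : ℕ) + 1))
      ((M + 1 : ℕ) * ((j + 1 : ℕ) + 3 + (j + 1 : ℕ) * ((M + 1 : ℕ) - (j + 1 : ℕ)) + ((M + 1 : ℕ) - 1)) - ((j + 1 : ℕ) + 1) ^ 2)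
      ((M + 1 : ℕ) - 1)) (hM : 1 ≤ M)
    (hn : (A + B + C) * (M + 2) = (j + 1) * ((M + 2) * (M + 2).choose (j + 2))) :
    A = M.choose j ∧ B = M * M.choose j ∧ C + M.choose (j + 2) = M * M.choose (j + 1) := by
  obtain ⟨x, x0, x1, x2, x3, x4, hx⟩ := three14 hj
  have hle : M.choose (j + 2) ≤ M * M.choose (j + 1) := by
    have h1 : (M.choose (j + 2) : ℝ) ≤ ((M * M.choose (j + 1) : ℕ) : ℝ) := by
      push_cast
      rw [x1, x2]
      have h2 : (j : ℝ) ≤ M := by exact_mod_cast hj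
      have h3 : (0 : ℝ) ≤ (M - j) * x := mul_nonneg (by linarith) hx.le
      have h4 : ((M : ℝ) - j - 1) ≤ M * (j + 2) := by
        have : (0 : ℝ) ≤ M := by positivity
        have : (0 : ℝ) ≤ j := by positivity
        nlinarith
      nlinarith
    exact_mod_cast h1
  obtain ⟨C0, hC0⟩ : ∃ C0, C0 + M.choose (j + 2) = M * M.choose (j + 1) := ⟨M * M.choose (j + 1) - M.choose (j + 2), by omega⟩
  have hC0r : (C0 : ℝ) = (M - j) * (M + 1) * (j + 1) * x := by
    have := congrArg (fun z : ℕ => (z : ℝ)) hC0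
    push_cast at this
    rw [x1, x2] at this
    linear_combination this
  have e0 : ((M.choose j + M * M.choose j + C0 : ℕ) : ℝ) * (M + 2) = (((A + B + C) * (M + 2) : ℕ) : ℝ) := by
    rw [hn]
    push_cast
    rw [x0, hC0r, x3]
    ring
  have e0' : M.choose j + M * M.choose j + C0 = A + B + C := by
    have : (M.choose j + M * M.choose j + C0) * (M + 2) = (A + B + C) * (M + 2) := by exact_mod_cast e0
    exact Nat.eq_of_mul_eq_mul_right (by omega) this
  have := h.eq (by omega) (A0 := M.choose j) (B0 := M * M.choose j) (C0 := C0) ⟨?_, ?_, ?_⟩ e0'.symm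
  · exact ⟨this.1, this.2.1, by rw [this.2.2, hC0]⟩
  · rw [e0']
    exact h.pos
  · push_cast
    rw [x0, hC0r]
    ring
  · push_cast
    rw [x0, hC0r]
    ring

/-- `C (M, i)`, `C (M, i + 1)`, `C (M, i + 2)`, `C (M + 2, i + 2)` -/
theorem case7 {A B C M i j : ℕ} (hij : i ≤ j) (hj : j + 1 ≤ M)
    (h : Nm A B C (M + 1) ((M + 1 : ℕ) * 2 - ((j + 2 : ℕ) + (i + 2 : ℕ)))
      ((M + 1 : ℕ) * ((j + 2 : ℕ) + 3 * (i + 2 : ℕ) + (j + 2 : ℕ) * ((M + 1 : ℕ) - (j + 2 : ℕ)) +
        (i + 2 : ℕ) * ((M + 1 : ℕ) - (i + 2 : ℕ))) - ((j + 2 : ℕ) + (i + 2 : ℕ)) ^ 2)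
      ((M + 1 : ℕ) - 1))
    (hn : (A + B + C) * (M + 2) = (j + 1 - i) * ((M + 2).choose (i + 2) * (M + 2).choose (j + 3))) :
    A + M.choose (j + 2) * M.choose i = M.choose (j + 1) * M.choose (i + 1) ∧
    B + M.choose (j + 3) * M.choose i = M.choose (j + 1) * M.choose (i + 2) ∧
    C + M.choose (j + 3) * M.choose (i + 1) = M.choose (j + 2) * M.choose (i + 2) := by
  obtain ⟨x, x0, x1, x2, x3, x4, hx⟩ := three14 (show j + 1 ≤ M by omega)
  obtain ⟨z, z0, z1, z2, z3, z4, hz⟩ := three14 (show i ≤ M by omega)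
  have e12 : j + 1 + 1 = j + 2 := rfl
  have e13 : j + 1 + 2 = j + 3 := rfl
  rw [e12] at x1 x4
  rw [e13] at x2 x3
  push_cast at x0 x1 x2 x3 x4
  have hijr : (i : ℝ) ≤ j := by exact_mod_cast hij
  have hjr : (j : ℝ) + 1 ≤ M := by exact_mod_cast hj
  have hi0 : (0 : ℝ) ≤ i := by positivity
  -- the three numbers
  have a1 : (M.choose (j + 1) : ℝ) * M.choose (i + 1) - M.choose (j + 2) * M.choose i =
      x * z * (j + 3) * (i + 2) * (M + 1) * (j + 1 - i) := by
    rw [x0, z1, x1, z0]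
    ring
  have a3 : (M.choose (j + 2) : ℝ) * M.choose (i + 2) - M.choose (j + 3) * M.choose (i + 1) =
      x * z * (M - j - 1) * (M - i) * (M + 1) * (j + 1 - i) := by
    rw [x1, z2, x2, z1]
    ring
  have a2 : (M.choose (j + 1) : ℝ) * M.choose (i + 2) - M.choose (j + 3) * M.choose i =
      x * z * (M + 1) * (j + 1 - i) * ((M + 1) * (M + 2) - (j + 3) * (i + 2) - (M - j - 1) * (M - i)) := by
    rw [x0, z2, x2, z0]
    ring
  have p0 : 0 ≤ x * z := (mul_pos hx hz).le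
  have n1 : M.choose (j + 2) * M.choose i ≤ M.choose (j + 1) * M.choose (i + 1) := by
    have h1 : ((M.choose (j + 2) * M.choose i : ℕ) : ℝ) ≤ ((M.choose (j + 1) * M.choose (i + 1) : ℕ) : ℝ) := by
      push_cast
      have h2 : (0 : ℝ) ≤ x * z * (j + 3) * (i + 2) * (M + 1) * (j + 1 - i) := by
        have : (0 : ℝ) ≤ j + 1 - i := by linarith
        positivity
      linarith
    exact_mod_cast h1
  have n3 : M.choose (j + 3) * M.choose (i + 1) ≤ M.choose (j + 2) * M.choose (i + 2) := by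
    have h1 : ((M.choose (j + 3) * M.choose (i + 1) : ℕ) : ℝ) ≤ ((M.choose (j + 2) * M.choose (i + 2) : ℕ) : ℝ) := by
      push_cast
      have h2 : (0 : ℝ) ≤ x * z * (M - j - 1) * (M - i) * (M + 1) * (j + 1 - i) := by
        have h5 : (0 : ℝ) ≤ j + 1 - i := by linarith
        have h6 : (0 : ℝ) ≤ M - j - 1 := by linarith
        have h7 : (0 : ℝ) ≤ M - i := by linarith
        positivity
      linarith
    exact_mod_cast h1
  have n2 : M.choose (j + 3) * M.choose i ≤ M.choose (j + 1) * M.choose (i + 2) := by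
    have h1 : ((M.choose (j + 3) * M.choose i : ℕ) : ℝ) ≤ ((M.choose (j + 1) * M.choose (i + 2) : ℕ) : ℝ) := by
      push_cast
      have h5 : (0 : ℝ) ≤ j + 1 - i := by linarith
      have h8 : (0 : ℝ) ≤ (M + 1) * (M + 2) - (j + 3) * (i + 2) - (M - j - 1) * (M - i) := by
        nlinarith [mul_nonneg hi0 (show (0 : ℝ) ≤ M - j - 1 by linarith), mul_nonneg hi0 h5]
      have h2 : (0 : ℝ) ≤ x * z * (M + 1) * (j + 1 - i) * ((M + 1) * (M + 2) - (j + 3) * (i + 2) - (M - j - 1) * (M - i)) := by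
        positivity
      linarith
    exact_mod_cast h1
  obtain ⟨A0, hA0⟩ : ∃ A0, A0 + M.choose (j + 2) * M.choose i = M.choose (j + 1) * M.choose (i + 1) :=
    ⟨M.choose (j + 1) * M.choose (i + 1) - M.choose (j + 2) * M.choose i, by omega⟩
  obtain ⟨B0, hB0⟩ : ∃ B0, B0 + M.choose (j + 3) * M.choose i = M.choose (j + 1) * M.choose (i + 2) :=
    ⟨M.choose (j + 1) * M.choose (i + 2) - M.choose (j + 3) * M.choose i, by omega⟩
  obtain ⟨C0, hC0⟩ : ∃ C0, C0 + M.choose (j + 3) * M.choose (i + 1) = M.choose (j + 2) * M.choose (i + 2) :=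
    ⟨M.choose (j + 2) * M.choose (i + 2) - M.choose (j + 3) * M.choose (i + 1), by omega⟩
  have rA : (A0 : ℝ) = x * z * (j + 3) * (i + 2) * (M + 1) * (j + 1 - i) := by
    rw [← a1]
    have := congrArg (fun z : ℕ => (z : ℝ)) hA0
    push_cast at this
    linarith
  have rB : (B0 : ℝ) = x * z * (M + 1) * (j + 1 - i) * ((M + 1) * (M + 2) - (j + 3) * (i + 2) - (M - j - 1) * (M - i)) := by
    rw [← a2]
    have := congrArg (fun z : ℕ => (z : ℝ)) hB0
    push_cast at this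
    linarith
  have rC : (C0 : ℝ) = x * z * (M - j - 1) * (M - i) * (M + 1) * (j + 1 - i) := by
    rw [← a3]
    have := congrArg (fun z : ℕ => (z : ℝ)) hC0
    push_cast at this
    linarith
  have hsub : ((j + 1 - i : ℕ) : ℝ) = j + 1 - i := by
    rw [Nat.cast_sub (by omega)]
    push_cast
    ring
  have e0 : ((A0 + B0 + C0 : ℕ) : ℝ) * (M + 2) = (((A + B + C) * (M + 2) : ℕ) : ℝ) := by
    rw [hn]
    push_cast [hsub]
    rw [rA, rB, rC, x3, z3]
    ring
  have e0' : A0 + B0 + C0 = A + B + C := by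
    have : (A0 + B0 + C0) * (M + 2) = (A + B + C) * (M + 2) := by exact_mod_cast e0
    exact Nat.eq_of_mul_eq_mul_right (by omega) this
  have := h.eq (by omega) (A0 := A0) (B0 := B0) (C0 := C0) ⟨?_, ?_, ?_⟩ e0'.symm
  · rw [this.1, this.2.1, this.2.2]
    exact ⟨hA0, hB0, hC0⟩
  · rw [e0']
    exact h.pos
  · push_cast
    rw [rA, rB, rC]
    ring
  · push_cast
    rw [rA, rB, rC]
    ring

end L2
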