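import Pool.Agent.Helper14.L2.Sh

/-!
Project L2 (MP_b8862a_ag), type `A`: the highest weight and the grading element have shapes with at most two columns.
-/

set_option linter.unusedSectionVars false
set_option linter.unusedVariables false

open Module PF TF PW PX AT

namespace L2

variable {E : Type*} [NormedAddCommGroup E] [InnerProductSpace ℝ E] {Φ X : Finset E} {m : ℕ} {u : Fin m → E}
  {l y v : E} {A B C n : ℕ}

theorem refl14 (hX : Sat' Φ X) {a x : E} (ha : a ∈ Φ) (hna : -a ∈ Φ) (hx : x ∈ X) : x - co a x • a ∈ X := by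
  obtain ⟨k, hk⟩ := hX.int a ha x hx
  rcases le_or_gt 0 k with h0 | h0
  · have h2 : ((k.toNat : ℕ) : ℝ) = k := by
      have : ((k.toNat : ℤ) : ℝ) = k := by rw [Int.toNat_of_nonneg h0]
      rw [Int.cast_natCast] at this
      exact this
    have h1 := hX.str a ha x hx k.toNat (by rw [hk, h2])
    rw [h2] at h1
    rw [hk]; exact h1
  · have h3 : ((-k).toNat : ℤ) = -k := Int.toNat_of_nonneg (by omega)
    have h2 : (((-k).toNat : ℕ) : ℝ) = -k := by
      have : (((-k).toNat : ℤ) : ℝ) = ((-k : ℤ) : ℝ) := by rw [h3]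
      rw [Int.cast_natCast] at this
      rw [this]; push_cast; rfl
    have h1 := hX.str (-a) hna x hx (-k).toNat (by rw [co_neg_left, hk, h2])
    rw [h2, smul_neg, neg_smul, neg_neg] at h1
    rw [hk]; exact h1

/-- permutations of the coordinates -/
theorem perm14 (F : FrA Φ m u) (hX : Sat' Φ X) (σ : Equiv.Perm (Fin m)) :
    ∀ x ∈ X, ∃ x' ∈ X, ∀ i, (inner ℝ x' (u i) : ℝ) = inner ℝ x (u (σ i)) := by
  refine Equiv.Perm.swap_induction_on σ (fun x hx => ⟨x, hx, fun i => rfl⟩) ?_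
  intro f a b hab ih x hx
  have h1 := refl14 hX (F.mem' hab) (by rw [neg_sub]; exact F.mem' hab.symm) hx
  obtain ⟨x', hx', h2⟩ := ih _ h1
  refine ⟨x', hx', fun i => ?_⟩
  rw [h2, inner_sub_left, inner_smul_left, F.co hab, F.inner_sub, conj_trivial, Equiv.Perm.mul_apply]
  by_cases h3 : f i = a
  · rw [h3, if_pos rfl, if_neg hab.symm, Equiv.swap_apply_left]
    ring
  · by_cases h4 : f i = b
    · rw [h4, if_pos rfl, if_neg hab, Equiv.swap_apply_right]
      ring
    · rw [if_neg (Ne.symm h3), if_neg (Ne.symm h4), Equiv.swap_apply_of_ne_of_ne h3 h4]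
      ring

/-- an ordered frame -/
theorem sorted14 (h : Wd' Φ X n l v) (F : FrA Φ m u) : ∃ u' : Fin m → E, FrA Φ m u' ∧
    ∀ i j, i < j → (inner ℝ v (u' j) : ℝ) < inner ℝ v (u' i) := by
  set σ : Equiv.Perm (Fin m) := Tuple.sort fun i => -(inner ℝ v (u i) : ℝ) with hσ
  have hmono : Monotone ((fun i => -(inner ℝ v (u i) : ℝ)) ∘ σ) := Tuple.monotone_sort _
  refine ⟨fun i => u (σ i), frA_perm43 F σ, ?_⟩
  intro i j hij
  have h1 := hmono hij.le
  simp only [Function.comp_apply] at h1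
  rcases lt_or_eq_of_le (show (inner ℝ v (u (σ j)) : ℝ) ≤ inner ℝ v (u (σ i)) by linarith) with h2 | h2
  · exact h2
  · exfalso
    refine h.reg (u (σ i) - u (σ j)) ((F.mem _).2 ⟨σ i, σ j, fun h3 => (ne_of_lt hij) (σ.injective h3), rfl⟩) ?_
    rw [inner_sub_right, h2, sub_self]

/-- the shape -/
theorem shape14 (hm : 1 ≤ m) {w : E} (hint : ∀ i j, ∃ k : ℤ, (inner ℝ w (u i) : ℝ) - inner ℝ w (u j) = k)
    (ha : ∀ i j : Fin m, i ≤ j → (inner ℝ w (u j) : ℝ) ≤ inner ℝ w (u i)) {i0 : Fin m} (hi0 : (i0 : ℕ) = 0) {d : ℤ}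
    (hd : (inner ℝ w (u i0) : ℝ) - inner ℝ w (u (Fin.rev i0)) = d) (hd1 : 1 ≤ d) (hd2 : d ≤ 2) :
    ∃ a b : ℕ, b ≤ a ∧ 1 ≤ a ∧ a < m ∧ Sh u w a b := by
  classical
  choose k hk using fun i => hint i (Fin.rev i0)
  have hle0 : ∀ j : Fin m, i0 ≤ j := fun j => by rw [Fin.le_def]; omega
  have hle1 : ∀ j : Fin m, j ≤ Fin.rev i0 := fun j => by rw [Fin.le_def, Fin.val_rev]; omega
  have hka : ∀ i j, i ≤ j → k j ≤ k i := by
    intro i j hij
    have h1 := ha i j hij
    have h2 : (k j : ℝ) ≤ k i := by rw [← hk, ← hk]; linarith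
    exact_mod_cast h2
  have hk0 : k i0 = d := by
    have h1 := hk i0
    rw [hd] at h1
    exact_mod_cast h1.symm
  have hkl : k (Fin.rev i0) = 0 := by
    have h1 := hk (Fin.rev i0)
    rw [sub_self] at h1
    exact_mod_cast h1.symm
  have hk02 : ∀ i, 0 ≤ k i ∧ k i ≤ 2 := by
    intro i
    have h1 := hka _ _ (hle0 i)
    have h2 := hka _ _ (hle1 i)
    omega
  set S1 : Finset (Fin m) := Finset.univ.filter fun j => 1 ≤ k j with hS1
  set S2 : Finset (Fin m) := Finset.univ.filter fun j => 2 ≤ k j with hS2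
  have low1 := LT.lower_card43 S1 (by
    intro i j hij hj
    rw [hS1, Finset.mem_filter] at hj ⊢
    refine ⟨Finset.mem_univ i, ?_⟩
    have h1 := hka i j hij
    omega)
  have low2 := LT.lower_card43 S2 (by
    intro i j hij hj
    rw [hS2, Finset.mem_filter] at hj ⊢
    refine ⟨Finset.mem_univ i, ?_⟩
    have h1 := hka i j hij
    omega)
  have mem1 : ∀ j, 1 ≤ k j ↔ (j : ℕ) < S1.card := by
    intro j
    rw [← low1 j, hS1, Finset.mem_filter]
    simp
  have mem2 : ∀ j, 2 ≤ k j ↔ (j : ℕ) < S2.card := by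
    intro j
    rw [← low2 j, hS2, Finset.mem_filter]
    simp
  refine ⟨S1.card, S2.card, ?_, ?_, ?_, inner ℝ w (u (Fin.rev i0)), ?_⟩
  · refine Finset.card_le_card fun j hj => ?_
    rw [hS2, Finset.mem_filter] at hj
    rw [hS1, Finset.mem_filter]
    exact ⟨hj.1, by omega⟩
  · have h1 := (mem1 i0).1 (by omega)
    omega
  · have h1 : ¬ ((Fin.rev i0 : Fin m) : ℕ) < S1.card := fun h => by
      have := (mem1 _).2 h
      omega
    rw [Fin.val_rev] at h1
    omega
  · intro i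
    have h1 : (inner ℝ w (u i) : ℝ) = k i + inner ℝ w (u (Fin.rev i0)) := by rw [← hk i]; ring
    rw [h1]
    congr 1
    have h2 := hk02 i
    unfold bt
    by_cases h3 : (i : ℕ) < S1.card
    · by_cases h4 : (i : ℕ) < S2.card
      · have h5 := (mem2 i).2 h4
        rw [if_pos h3, if_pos h4, show k i = 2 by omega]
        norm_num
      · have h5 := (mem1 i).2 h3
        have h6 : ¬ 2 ≤ k i := fun h => h4 ((mem2 i).1 h)
        rw [if_pos h3, if_neg h4, show k i = 1 by omega]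
        norm_num
    · have h5 : ¬ 1 ≤ k i := fun h => h3 ((mem1 i).1 h)
      have h6 : ¬ (i : ℕ) < S2.card := fun h => by
        have := (mem2 i).2 h
        omega
      rw [if_neg h3, if_neg h6, show k i = 0 by omega]
      norm_num

/-- **The reduction.** -/
theorem DU.red (h : DU Φ X A B C l y v) (F0 : FrA Φ m u) (hm : 3 ≤ m) : ∃ u : Fin m → E, FrA Φ m u ∧
    (∀ i j, i < j → (inner ℝ v (u j) : ℝ) < inner ℝ v (u i)) ∧ ∃ a b p q : ℕ, b ≤ a ∧ 1 ≤ a ∧ a < m ∧ q ≤ p ∧ 1 ≤ p ∧ p < m ∧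
      Sh u l a b ∧ Sh u y p q ∧ (b ≠ 0 → a + b ≠ m) ∧ (b = 0 → 2 * a ≠ m) ∧
      (min a p + min p (m - a)) + (min a q + min q (m - a)) + (min b p + min p (m - b)) + (min b q + min q (m - b)) =
        2 + 2 * p + 2 * q := by
  classical
  obtain ⟨u, F, hs⟩ := sorted14 h.toWd' F0
  have hX := h.sat
  have hls := hX.span l h.l_mem
  have hys := h.y_mem
  have hm0 : 0 < m := by omega
  have hmr : (3 : ℝ) ≤ m := by exact_mod_cast hm
  have hLa : ∀ i j : Fin m, i ≤ j → (inner ℝ l (u j) : ℝ) ≤ inner ℝ l (u i) := fun i j hij => LT.anti43 F hs h.dom hij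
  have hYa : ∀ i j : Fin m, i ≤ j → (inner ℝ y (u j) : ℝ) ≤ inner ℝ y (u i) := fun i j hij => LT.anti43 F hs h.ydom hij
  have hYint : ∀ i j, ∃ k : ℤ, (inner ℝ y (u i) : ℝ) - inner ℝ y (u j) = k := by
    intro i j
    by_cases hij : i = j
    · exact ⟨0, by rw [hij]; simp⟩
    · obtain ⟨k, hk⟩ := h.lev _ (F.mem' hij)
      rw [real_inner_comm, F.inner_sub'] at hk
      exact ⟨k, hk⟩
  have hLint : ∀ i j, ∃ k : ℤ, (inner ℝ l (u i) : ℝ) - inner ℝ l (u j) = k := by
    intro i j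
    by_cases hij : i = j
    · exact ⟨0, by rw [hij]; simp⟩
    · obtain ⟨k, hk⟩ := hX.int _ (F.mem' hij) l h.l_mem
      rw [F.co hij] at hk
      exact ⟨k, hk⟩
  -- the lowest weight
  obtain ⟨x0, hx0, hx0c⟩ := perm14 F hX Fin.revPerm l h.l_mem
  have hx0c' : ∀ i, (inner ℝ x0 (u i) : ℝ) = inner ℝ l (u (Fin.rev i)) := hx0c
  have hx0s := hX.span x0 hx0
  obtain ⟨z, hz⟩ : ∃ z : E, z = -∑ i, (inner ℝ y (u i) : ℝ) • u (Fin.rev i) := ⟨_, rfl⟩
  have hzc : ∀ j, (inner ℝ z (u j) : ℝ) = -inner ℝ y (u (Fin.rev j)) := by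
    intro j
    rw [hz, inner_neg_left, sum_inner]
    congr 1
    have h1 : ∀ i : Fin m, (inner ℝ ((inner ℝ y (u i) : ℝ) • u (Fin.rev i)) (u j) : ℝ) =
        (if i = Fin.rev j then (inner ℝ y (u i) : ℝ) else 0) - (1 / (m : ℝ)) * inner ℝ y (u i) := by
      intro i
      rw [inner_smul_left, conj_trivial, F.gram]
      by_cases h2 : i = Fin.rev j
      · have h3 : Fin.rev i = j := by rw [h2, Fin.rev_rev]
        rw [if_pos h3, if_pos h2]
        ring
      · have h3 : ¬ Fin.rev i = j := fun h4 => h2 (by rw [← h4, Fin.rev_rev])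
        rw [if_neg h3, if_neg h2]
        ring
    simp only [h1, Finset.sum_sub_distrib, Finset.sum_ite_eq', Finset.mem_univ, if_true, ← Finset.mul_sum]
    rw [F.sum_ax hm0, mul_zero, sub_zero]
  have hxz : ∀ x x' : E, x ∈ Submodule.span ℝ (Φ : Set E) → x' ∈ Submodule.span ℝ (Φ : Set E) →
      (∀ i, (inner ℝ x' (u i) : ℝ) = inner ℝ x (u (Fin.rev i))) →
      (inner ℝ x' z : ℝ) = -inner ℝ x y := by
    intro x x' hx hx' hxx
    rw [F.inner_eq hx, F.inner_eq hx', ← Finset.sum_neg_distrib, ← Equiv.sum_comp Fin.revPerm]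
    refine Finset.sum_congr rfl fun i _ => ?_
    rw [Fin.revPerm_apply, hxx, hzc, Fin.rev_rev]
    ring
  have hmin : ∀ x ∈ X, (inner ℝ x0 y : ℝ) ≤ inner ℝ x y := by
    intro x hx
    obtain ⟨x', hx', hx'c⟩ := perm14 F hX Fin.revPerm x hx
    have h1 := h.top z (fun a ha => LT.dom43 F hs (fun i j hij => by
      rw [hzc, hzc, neg_le_neg_iff]
      exact hYa _ _ (Fin.rev_le_rev.2 hij)) ha) x' hx'
    have h2 := hxz x x' (hX.span x hx) (hX.span x' hx') hx'c
    have h3 := hxz x0 l hx0s hls (fun i => by rw [hx0c', Fin.rev_rev])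
    rw [h2, h3] at h1
    linarith
  have hdrop : (inner ℝ x0 y : ℝ) = inner ℝ l y - 2 := by
    obtain ⟨x1, hx1, h1⟩ := h.low
    have h2 := hmin x1 hx1
    have h3 := h.ge x0 hx0
    linarith
  have hsum : ∑ i, ((inner ℝ l (u i) : ℝ) - inner ℝ l (u (Fin.rev i))) * inner ℝ y (u i) = 2 := by
    have h1 : ∑ i, ((inner ℝ l (u i) : ℝ) - inner ℝ l (u (Fin.rev i))) * inner ℝ y (u i) = inner ℝ l y - inner ℝ x0 y := by
      rw [F.inner_eq hls, F.inner_eq hx0s, ← Finset.sum_sub_distrib]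
      refine Finset.sum_congr rfl fun i _ => ?_
      rw [hx0c']
      ring
    rw [h1, hdrop]
    ring
  -- the integers
  choose L hL using fun i => hLint i (Fin.rev i)
  choose D hD using fun i => hYint i (Fin.rev i)
  have hLant : ∀ i j, i ≤ j → L j ≤ L i := by
    intro i j hij
    have h1 := hLa i j hij
    have h2 := hLa _ _ (Fin.rev_le_rev.2 hij)
    have h3 : (L j : ℝ) ≤ L i := by rw [← hL, ← hL]; linarith
    exact_mod_cast h3
  have hDant : ∀ i j, i ≤ j → D j ≤ D i := by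
    intro i j hij
    have h1 := hYa i j hij
    have h2 := hYa _ _ (Fin.rev_le_rev.2 hij)
    have h3 : (D j : ℝ) ≤ D i := by rw [← hD, ← hD]; linarith
    exact_mod_cast h3
  have hLr : ∀ i, L (Fin.rev i) = -L i := by
    intro i
    have h1 := hL (Fin.rev i)
    rw [Fin.rev_rev] at h1
    have h2 : (L (Fin.rev i) : ℝ) = ((-L i : ℤ) : ℝ) := by
      push_cast
      rw [← h1, ← hL i]
      ring
    exact_mod_cast h2
  have hDr : ∀ i, D (Fin.rev i) = -D i := by
    intro i
    have h1 := hD (Fin.rev i)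
    rw [Fin.rev_rev] at h1
    have h2 : (D (Fin.rev i) : ℝ) = ((-D i : ℤ) : ℝ) := by
      push_cast
      rw [← h1, ← hD i]
      ring
    exact_mod_cast h2
  have hLD : ∑ i, L i * D i = 4 := by
    have h1 : ∑ i, (L i : ℝ) * inner ℝ y (u i) = 2 := by
      rw [← hsum]
      exact Finset.sum_congr rfl fun i _ => by rw [← hL i]
    have h2 : ∑ i, (L i : ℝ) * inner ℝ y (u (Fin.rev i)) = -2 := by
      rw [← h1, ← Finset.sum_neg_distrib, ← Equiv.sum_comp Fin.revPerm]
      refine Finset.sum_congr rfl fun i _ => ?_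
      rw [Fin.revPerm_apply, Fin.rev_rev, hLr]
      push_cast
      ring
    have h3 : ((∑ i, L i * D i : ℤ) : ℝ) = ((4 : ℤ) : ℝ) := by
      push_cast
      have h4 : ∑ i, (L i : ℝ) * D i = ∑ i, (L i : ℝ) * inner ℝ y (u i) - ∑ i, (L i : ℝ) * inner ℝ y (u (Fin.rev i)) := by
        rw [← Finset.sum_sub_distrib]
        refine Finset.sum_congr rfl fun i _ => ?_
        rw [← hD i]
        ring
      rw [h4, h1, h2]
      norm_num
    exact_mod_cast h3
  let i0 : Fin m := ⟨0, hm0⟩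
  have hi0 : (i0 : ℕ) = 0 := rfl
  have hle0 : ∀ j : Fin m, i0 ≤ j := fun j => by rw [Fin.le_def]; exact Nat.zero_le _
  have hle1 : ∀ j : Fin m, j ≤ Fin.rev i0 := fun j => by
    rw [Fin.le_def, Fin.val_rev]
    omega
  have hne0 : i0 ≠ Fin.rev i0 := by
    intro h
    have := congrArg Fin.val h
    rw [Fin.val_rev] at this
    omega
  have hnn := LT.prod_nonneg43 hLant hLr hDant hDr
  obtain ⟨i, hi⟩ : ∃ i, L i * D i ≠ 0 := by
    by_contra hcon
    push Not at hcon
    rw [Finset.sum_eq_zero fun i _ => hcon i] at hLD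
    omega
  have hL1 : 1 ≤ L i0 := by
    have h1 := LT.abs_le43 hLant hLr (hle0 i) (hle1 i)
    have h2 := Int.one_le_abs (left_ne_zero_of_mul hi)
    omega
  have hD1 : 1 ≤ D i0 := by
    have h1 := LT.abs_le43 hDant hDr (hle0 i) (hle1 i)
    have h2 := Int.one_le_abs (right_ne_zero_of_mul hi)
    omega
  have hlast : L (Fin.rev i0) * D (Fin.rev i0) = L i0 * D i0 := by rw [hLr, hDr]; ring
  have hsub : ∑ i ∈ {i0, Fin.rev i0}, L i * D i ≤ 4 := by
    rw [← hLD]
    exact Finset.sum_le_sum_of_subset_of_nonneg (Finset.subset_univ _) fun i _ _ => hnn i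
  rw [Finset.sum_pair hne0, hlast] at hsub
  have hprod : L i0 * D i0 ≤ 2 := by omega
  have hL2 : L i0 ≤ 2 := by nlinarith
  have hD2 : D i0 ≤ 2 := by nlinarith
  obtain ⟨a, b, hba, ha1, ham, hSl⟩ := shape14 (by omega) hLint hLa hi0 (hL i0) hL1 hL2
  obtain ⟨p, q, hqp, hp1, hpm, hSy⟩ := shape14 (by omega) hYint hYa hi0 (hD i0) hD1 hD2
  refine ⟨u, F, hs, a, b, p, q, hba, ha1, ham, hqp, hp1, hpm, hSl, hSy, ?_, ?_, ?_⟩
  · intro hb hab
    apply h.nsd
    have h1 : -l = x0 := by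
      refine F.eq_of (Submodule.neg_mem _ hls) hx0s fun i => ?_
      obtain ⟨t, ht⟩ := hSl
      have h2 := Sh.const F hm0 ham.le (by omega) ht
      have h3 : ((a : ℝ) + b) = m := by exact_mod_cast hab
      have h4 : t = -1 := by
        rw [h3] at h2
        have : (m : ℝ) ≠ 0 := by positivity
        exact mul_left_cancel₀ this (by linarith)
      rw [inner_neg_left, hx0c', ht, ht, bt_rev ham.le, bt_rev (by omega), show m - a = b by omega,
        show m - b = a by omega, h4]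
      ring
    rw [h1]
    exact hx0
  · intro hb hab
    apply h.nsd
    have h1 : -l = x0 := by
      refine F.eq_of (Submodule.neg_mem _ hls) hx0s fun i => ?_
      obtain ⟨t, ht⟩ := hSl
      have h2 := Sh.const F hm0 ham.le (by omega) ht
      have h3 : (2 * (a : ℝ)) = m := by exact_mod_cast hab
      have h4 : t = -(1 / 2) := by
        rw [hb] at h2
        have h5 : (m : ℝ) ≠ 0 := by positivity
        refine mul_left_cancel₀ h5 ?_
        rw [h2, ← h3]
        push_cast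
        ring
      have h6 : bt m (i : ℕ) = 1 := by
        unfold bt
        rw [if_pos i.2]
      have h7 : bt 0 (i : ℕ) = 0 := by
        unfold bt
        rw [if_neg (Nat.not_lt_zero _)]
      rw [inner_neg_left, hx0c', ht, ht, bt_rev ham.le, hb, bt_rev (Nat.zero_le _), show m - a = a by omega,
        Nat.sub_zero, h4, h6, h7]
      ring
    rw [h1]
    exact hx0
  · have h1 := Sh.drop ham.le (hba.trans ham.le) hpm.le (hqp.trans hpm.le) hSl hSy
    rw [hsum] at h1
    have h2 : (((min a p + min p (m - a)) + (min a q + min q (m - a)) + (min b p + min p (m - b)) +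
        (min b q + min q (m - b)) : ℕ) : ℝ) = ((2 + 2 * p + 2 * q : ℕ) : ℝ) := by
      push_cast at h1 ⊢
      linarith
    exact_mod_cast h2

end L2
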