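import Pool.Agent.Helper2.LT.List
import Pool.Agent.Helper43.L2.TopO
import Pool.Agent.Helper81.L2.ListS

/-!
Project L2 (MP_b8862a_ag): self-dual modules with three numbers, both types of forms.
-/

set_option linter.unusedSectionVars false
set_option linter.unusedVariables false

open Module

attribute [local instance 100] LieRing.ofAssociativeRing

namespace L2

/-- **Self-dual modules.** -/
theorem self3_14 {V : Type} [AddCommGroup V] [Module ℂ V] [FiniteDimensional ℂ V] {ω : LinearMap.BilinForm ℂ V}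
    (hω : ω.IsSymm ∨ ω.IsAlt) (hnd : ω.Nondegenerate) {L : LieSubalgebra ℂ (Module.End ℂ V)}
    (hsimp : LieAlgebra.IsSimple ℂ L)
    (hirr : ∀ W : Submodule ℂ V, (∀ x ∈ L, ∀ u ∈ W, x u ∈ W) → W = ⊥ ∨ W = ⊤)
    (hsk : ∀ x ∈ L, ∀ u v, ω (x u) v = -ω u (x v))
    (q : Module.End ℂ V) (hq : q ∈ L) {s : ℕ} (hs : 0 < s) (h2s : 2 * s < finrank ℂ V) (h5 : 5 ≤ finrank ℂ V)
    (hsup : Module.End.eigenspace q 1 ⊔ Module.End.eigenspace q 0 ⊔ Module.End.eigenspace q (-1) = ⊤)
    (h1 : finrank ℂ (Module.End.eigenspace q 1) = s) (h2 : finrank ℂ (Module.End.eigenspace q (-1)) = s)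
    (hO : ω.IsSymm → ¬ LT.Exc s (finrank ℂ V - 2 * s)) (hS : ω.IsAlt → ¬ ExcS s (finrank ℂ V - 2 * s))
    (x : Module.End ℂ V) (hx : ∀ u v, ω (x u) v = -ω u (x v)) : x ∈ L := by
  rcases hω with h | h
  · refine LT.core_lt (Or.inl h) hnd hsimp hirr hsk q hq hs h2s h5 hsup h1 h2 ?_ x hx
    intro ι _ Φ X l y v hd ht hp
    rcases LT.list hd ht (hp h) h5 with h3 | h3 | h3
    · exact Or.inl h3
    · exact Or.inr h3
    · exact absurd h3 (hO h)
  · refine LT.core_ltO h hnd hsimp hirr hsk q hq hs h2s h5 hsup h1 h2 ?_ x hx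
    intro ι _ Φ X l y v hd ht hp
    rcases listS hd ht hp h5 with h3 | h3
    · exact h3
    · exact absurd h3 (hS h)

end L2
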