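import Pool.Agent.Helper14.L2.DefsU
import Pool.Agent.Helper43.LT.TypeA
import Pool.Agent.Helper90.LT.DimA
import Pool.Agent.Helper59.AT.DimU
import Pool.Agent.Helper3.AT.DichA

/-!
Project L2 (MP_b8862a_ag), type `A`: shapes with at most two columns.
-/

set_option linter.unusedSectionVars false
set_option linter.unusedVariables false

open Module PF TF PW PX AT

namespace L2

/-- the indicator of `i < a` -/
noncomputable def bt (a i : ℕ) : ℝ := if i < a then 1 else 0

theorem bt_mul (a b i : ℕ) : bt a i * bt b i = bt (min a b) i := by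
  unfold bt
  by_cases h1 : i < a <;> by_cases h2 : i < b <;> simp [h1, h2]

theorem bt_01 (a i : ℕ) : bt a i = 0 ∨ bt a i = 1 := by
  unfold bt
  by_cases h : i < a <;> simp [h]

theorem sum_bt {m a : ℕ} (ha : a ≤ m) : ∑ i : Fin m, bt a i = a := by
  rw [Fin.sum_univ_eq_sum_range (fun i => bt a i) m]
  unfold bt
  rw [← Finset.sum_filter, Finset.sum_const, nsmul_eq_mul, mul_one]
  congr 1
  have : (Finset.range m).filter (fun i => i < a) = Finset.range a := by
    ext i
    simp only [Finset.mem_filter, Finset.mem_range]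
    omega
  rw [this, Finset.card_range]

theorem sum_bt_mul {m a b : ℕ} (ha : a ≤ m) : ∑ i : Fin m, bt a i * bt b i = ((min a b : ℕ) : ℝ) := by
  simp only [bt_mul]
  exact sum_bt (by omega)

theorem bt_rev {m a : ℕ} (ha : a ≤ m) (i : Fin m) : bt a (Fin.rev i) = 1 - bt (m - a) i := by
  unfold bt
  rw [Fin.val_rev]
  have := i.2
  by_cases h : (i : ℕ) < m - a
  · rw [if_neg (by omega), if_pos h]
    norm_num
  · rw [if_pos (by omega), if_neg h]
    norm_num

theorem sum_bt_rev {m a b : ℕ} (ha : a ≤ m) (hb : b ≤ m) :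
    ∑ i : Fin m, bt a (Fin.rev i) * bt b i = b - ((min b (m - a) : ℕ) : ℝ) := by
  have h1 : ∀ i : Fin m, bt a (Fin.rev i) * bt b i = bt b i - bt b i * bt (m - a) i := by
    intro i
    rw [bt_rev ha]
    ring
  simp only [h1, Finset.sum_sub_distrib]
  rw [sum_bt hb, sum_bt_mul hb]

variable {E : Type*} [NormedAddCommGroup E] [InnerProductSpace ℝ E] {Φ X : Finset E} {m : ℕ} {u : Fin m → E}
  {l y v : E} {a b p q n : ℕ}

/-- the coordinates of `l` are `2` on `b` places, `1` on `a - b` places and `0`, up to a constant -/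
def Sh (u : Fin m → E) (l : E) (a b : ℕ) : Prop :=
  ∃ t : ℝ, ∀ i : Fin m, (inner ℝ l (u i) : ℝ) = bt a i + bt b i + t

theorem Sh.const (F : FrA Φ m u) (hm : 0 < m) (ha : a ≤ m) (hb : b ≤ m) {t : ℝ}
    (h : ∀ i : Fin m, (inner ℝ l (u i) : ℝ) = bt a i + bt b i + t) : m * t = -((a : ℝ) + b) := by
  have h1 := F.sum_ax hm l
  simp only [h, Finset.sum_add_distrib, Finset.sum_const, Finset.card_univ, Fintype.card_fin, nsmul_eq_mul] at h1
  rw [sum_bt ha, sum_bt hb] at h1
  linarith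

/-- the inner product -/
theorem Sh.ip (F : FrA Φ m u) (hm : 0 < m) (ha : a ≤ m) (hb : b ≤ m) (hp : p ≤ m) (hq : q ≤ m)
    (hl : l ∈ Submodule.span ℝ (Φ : Set E)) (h : Sh u l a b) (h' : Sh u y p q) :
    m * (inner ℝ l y : ℝ) = m * (((min a p : ℕ) : ℝ) + ((min a q : ℕ) : ℝ) + ((min b p : ℕ) : ℝ) + ((min b q : ℕ) : ℝ)) -
      (a + b) * (p + q) := by
  obtain ⟨t, ht⟩ := h
  obtain ⟨s, hs⟩ := h'
  have h1 := Sh.const F hm ha hb ht
  have h2 := Sh.const F hm hp hq hs
  rw [F.inner_eq hl]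
  have h3 : ∀ i : Fin m, (inner ℝ l (u i) : ℝ) * inner ℝ y (u i) = bt a i * bt p i + bt a i * bt q i + bt b i * bt p i +
      bt b i * bt q i + s * bt a i + s * bt b i + t * bt p i + t * bt q i + t * s := by
    intro i
    rw [ht, hs]
    ring
  simp only [h3, Finset.sum_add_distrib, ← Finset.mul_sum, Finset.sum_const, Finset.card_univ, Fintype.card_fin,
    nsmul_eq_mul]
  rw [sum_bt_mul ha, sum_bt_mul ha, sum_bt_mul hb, sum_bt_mul hb, sum_bt ha, sum_bt hb, sum_bt hp, sum_bt hq]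
  linear_combination ((a : ℝ) + b + m * t) * h2

/-- the difference of the inner products of `y` with the highest and the lowest weight -/
theorem Sh.drop (ha : a ≤ m) (hb : b ≤ m) (hp : p ≤ m) (hq : q ≤ m) (h : Sh u l a b) (h' : Sh u y p q) :
    ∑ i, ((inner ℝ l (u i) : ℝ) - inner ℝ l (u (Fin.rev i))) * inner ℝ y (u i) =
      (((min a p : ℕ) : ℝ) + ((min p (m - a) : ℕ) : ℝ) - p) + (((min a q : ℕ) : ℝ) + ((min q (m - a) : ℕ) : ℝ) - q) +
      (((min b p : ℕ) : ℝ) + ((min p (m - b) : ℕ) : ℝ) - p) + (((min b q : ℕ) : ℝ) + ((min q (m - b) : ℕ) : ℝ) - q) := by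
  obtain ⟨t, ht⟩ := h
  obtain ⟨s, hs⟩ := h'
  have h3 : ∀ i : Fin m, ((inner ℝ l (u i) : ℝ) - inner ℝ l (u (Fin.rev i))) * inner ℝ y (u i) =
      (bt a i * bt p i + bt a i * bt q i + bt b i * bt p i + bt b i * bt q i) -
      (bt a (Fin.rev i) * bt p i + bt a (Fin.rev i) * bt q i + bt b (Fin.rev i) * bt p i + bt b (Fin.rev i) * bt q i) +
      s * (bt a i - bt a (Fin.rev i) + (bt b i - bt b (Fin.rev i))) := by
    intro i
    rw [ht, hs, ht]
    ring
  have h4 : ∀ c : ℕ, ∑ i : Fin m, (bt c i - bt c (Fin.rev i)) = 0 := by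
    intro c
    rw [Finset.sum_sub_distrib, sub_eq_zero]
    exact (Equiv.sum_comp Fin.revPerm fun i : Fin m => bt c i).symm
  have h5 : ∑ i : Fin m, (bt a i - bt a (Fin.rev i) + (bt b i - bt b (Fin.rev i))) = 0 := by
    rw [Finset.sum_add_distrib, h4, h4, add_zero]
  simp only [h3]
  rw [Finset.sum_add_distrib, Finset.sum_sub_distrib, ← Finset.mul_sum, h5]
  simp only [Finset.sum_add_distrib]
  rw [sum_bt_mul ha, sum_bt_mul ha, sum_bt_mul hb, sum_bt_mul hb, sum_bt_rev ha hp, sum_bt_rev ha hq, sum_bt_rev hb hp,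
    sum_bt_rev hb hq]
  ring

/-- the Casimir constant -/
theorem Sh.cs (F : FrA Φ m u) (hm : 0 < m) (ha : a ≤ m) (hb : b ≤ a)
    (hl : l ∈ Submodule.span ℝ (Φ : Set E)) (h : Sh u l a b) :
    m * cas Φ l = m * (a + 3 * b + a * (m - a) + b * (m - b)) - (a + b) ^ 2 := by
  have hbm : b ≤ m := hb.trans ha
  have h1 := Sh.ip F hm ha hbm ha hbm hl h h
  rw [F.inner_eq hl, min_self, min_eq_right hb, min_eq_left hb, min_self] at h1
  rw [LT.casA43 F hl]
  have h2 : ∑ i, (inner ℝ l (u i) : ℝ) ^ 2 = ∑ i, inner ℝ l (u i) * inner ℝ l (u i) :=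
    Finset.sum_congr rfl fun i _ => by ring
  have h3 : ∑ i : Fin m, ∑ j : Fin m, |(inner ℝ l (u i) : ℝ) - inner ℝ l (u j)| = 2 * (a * (m - a) + b * (m - b)) := by
    obtain ⟨t, ht⟩ := h
    have h4 : ∀ i j : Fin m, |(inner ℝ l (u i) : ℝ) - inner ℝ l (u j)| =
        (bt a i + bt a j - 2 * (bt a i * bt a j)) + (bt b i + bt b j - 2 * (bt b i * bt b j)) := by
      intro i j
      rw [ht, ht]
      unfold bt
      by_cases h5 : (i : ℕ) < b
      · have h5' : (i : ℕ) < a := by omega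
        by_cases h6 : (j : ℕ) < b
        · have h6' : (j : ℕ) < a := by omega
          rw [if_pos h5, if_pos h5', if_pos h6, if_pos h6']
          norm_num
        · by_cases h7 : (j : ℕ) < a
          · rw [if_pos h5, if_pos h5', if_neg h6, if_pos h7]
            norm_num
          · rw [if_pos h5, if_pos h5', if_neg h6, if_neg h7]
            norm_num
      · by_cases h5' : (i : ℕ) < a
        · by_cases h6 : (j : ℕ) < b
          · have h6' : (j : ℕ) < a := by omega
            rw [if_neg h5, if_pos h5', if_pos h6, if_pos h6']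
            norm_num
          · by_cases h7 : (j : ℕ) < a
            · rw [if_neg h5, if_pos h5', if_neg h6, if_pos h7]
              norm_num
            · rw [if_neg h5, if_pos h5', if_neg h6, if_neg h7]
              norm_num
        · by_cases h6 : (j : ℕ) < b
          · have h6' : (j : ℕ) < a := by omega
            rw [if_neg h5, if_neg h5', if_pos h6, if_pos h6']
            norm_num
          · by_cases h7 : (j : ℕ) < a
            · rw [if_neg h5, if_neg h5', if_neg h6, if_pos h7]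
              norm_num
            · rw [if_neg h5, if_neg h5', if_neg h6, if_neg h7]
              norm_num
    simp only [h4, Finset.sum_add_distrib, Finset.sum_sub_distrib, Finset.sum_const, Finset.card_univ, Fintype.card_fin,
      nsmul_eq_mul, ← Finset.mul_sum, ← Finset.sum_mul]
    rw [sum_bt ha, sum_bt hbm]
    ring
  rw [h2, h3]
  linear_combination h1

/-- Weyl's dimension formula -/
theorem Sh.dim (h : DimH Φ n l v) (F : FrA Φ m u) (hs : ∀ i j, i < j → (inner ℝ v (u j) : ℝ) < inner ℝ v (u i))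
    (ha : a ≤ m) (hb : b ≤ a) (hl : Sh u l a b) :
    n * (m + 1) = (a + 1 - b) * ((m + 1).choose b * (m + 1).choose (a + 1)) := by
  obtain ⟨t, ht⟩ := hl
  obtain ⟨z, hz⟩ : ∃ z : Fin m → ℤ, ∀ j, z j = (if (j : ℕ) < b then 1 else 0) + (if (j : ℕ) + 1 < a + 1 then 0 else -1) :=
    ⟨_, fun _ => rfl⟩
  have hk : ∀ i, (inner ℝ l (u i) : ℝ) = z i + (t + 1) := by
    intro i
    rw [ht, hz]
    unfold bt
    by_cases h1 : (i : ℕ) < b <;> by_cases h2 : (i : ℕ) < a
    · rw [if_pos h1, if_pos h2, if_pos h1, if_pos (by omega)]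
      push_cast
      ring
    · rw [if_pos h1, if_neg h2, if_pos h1, if_neg (by omega)]
      push_cast
      ring
    · rw [if_neg h1, if_pos h2, if_neg h1, if_pos (by omega)]
      push_cast
      ring
    · rw [if_neg h1, if_neg h2, if_neg h1, if_neg (by omega)]
      push_cast
      ring
  obtain ⟨-, h2, -⟩ := dim_frAR_sorted59 h F (k := fun i => (inner ℝ l (u i) : ℝ)) (fun i => rfl) hs
  rw [PaR_eq43 m (x := fun i => (inner ℝ l (u i) : ℝ)) (z := z) (t := t + 1) hk,
    PaR_eq43 m (x := 0) (z := 0) (t := 0) (by intro i; simp)] at h2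
  have h3 : (n : ℤ) * Pa m 0 = Pa m z := by exact_mod_cast h2
  have h4 := LT.Pa_two m b (a + 1) (by omega) (by omega) z hz
  have h5 := LT.Pa_two m 0 (m + 1) (by omega) le_rfl 0 (by
    intro j
    have := j.2
    simp)
  have hP := LT.Pa_zero_ne m
  rw [← h3, show m + 1 - (a + 1) = m - a by omega] at h4
  rw [Nat.sub_self, Nat.sub_zero, Nat.factorial_zero] at h5
  have c1 := Nat.choose_mul_factorial_mul_factorial (show b ≤ m + 1 by omega)
  have c2 := Nat.choose_mul_factorial_mul_factorial (show a + 1 ≤ m + 1 by omega)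
  rw [show m + 1 - (a + 1) = m - a by omega] at c2
  obtain ⟨F1, hF1⟩ : ∃ F1, b.factorial * (m + 1 - b).factorial = F1 := ⟨_, rfl⟩
  obtain ⟨F2, hF2⟩ : ∃ F2, (a + 1).factorial * (m - a).factorial = F2 := ⟨_, rfl⟩
  have hF1p : 0 < F1 := by rw [← hF1]; positivity
  have hF2p : 0 < F2 := by rw [← hF2]; positivity
  have c1' : (m + 1).choose b * F1 = (m + 1).factorial := by rw [← c1, ← hF1]; ring
  have c2' : (m + 1).choose (a + 1) * F2 = (m + 1).factorial := by rw [← c2, ← hF2]; ring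
  rw [hF1, hF2] at h4
  have c1z := congrArg (fun x : ℕ => (x : ℤ)) c1'
  have c2z := congrArg (fun x : ℕ => (x : ℤ)) c2'
  push_cast at h4 h5 c1z c2z
  have key : ((n * (m + 1) : ℕ) : ℤ) = (((a + 1 - b) * ((m + 1).choose b * (m + 1).choose (a + 1)) : ℕ) : ℤ) := by
    have hne : Pa m 0 * ((F1 : ℤ) * F2) ≠ 0 := mul_ne_zero hP (by positivity)
    apply mul_right_cancel₀ hne
    push_cast [Nat.cast_sub (show b ≤ a + 1 by omega)]
    linear_combination ((m : ℤ) + 1) * h4 - ((a : ℤ) + 1 - b) * h5 -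
      ((a : ℤ) + 1 - b) * Pa m 0 * ((m + 1).choose (a + 1) * F2) * c1z - ((a : ℤ) + 1 - b) * Pa m 0 * (m + 1).factorial * c2z
  exact_mod_cast key

/-- the opposite frame -/
theorem Sh.flip (ha : a ≤ m) (hb : b ≤ m) (h : Sh u l a b) : Sh (fun i => -u (Fin.rev i)) l (m - b) (m - a) := by
  obtain ⟨t, ht⟩ := h
  refine ⟨-2 - t, fun i => ?_⟩
  rw [inner_neg_right, ht, bt_rev ha, bt_rev hb]
  ring

theorem Sh.shift (h : Sh u l m b) : Sh u l b 0 := by
  obtain ⟨t, ht⟩ := h
  refine ⟨t + 1, fun i => ?_⟩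
  rw [ht]
  unfold bt
  rw [if_pos i.2, if_neg (Nat.not_lt_zero _)]
  ring

theorem flip_frA (F : FrA Φ m u) : FrA Φ m (fun i => -u (Fin.rev i)) := frA_neg3 (frA_perm43 F Fin.revPerm)

theorem flip_sorted (hs : ∀ i j, i < j → (inner ℝ v (u j) : ℝ) < inner ℝ v (u i)) (i j : Fin m) (hij : i < j) :
    (inner ℝ v (-u (Fin.rev j)) : ℝ) < inner ℝ v (-u (Fin.rev i)) := by
  rw [inner_neg_right, inner_neg_right, neg_lt_neg_iff]
  exact hs _ _ (Fin.rev_lt_rev.2 hij)

end L2
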