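import Pool.Agent.Helper14.L2.NumB

/-!
Project L2 (MP_b8862a_ag), type `A`: the list.
-/

set_option linter.unusedSectionVars false
set_option linter.unusedVariables false

open Module PF TF PW PX AT

namespace L2

variable {E : Type*} [NormedAddCommGroup E] [InnerProductSpace ℝ E] {Φ X : Finset E} {m : ℕ} {u : Fin m → E}
  {l y v : E} {A B C a b p q : ℕ}

/-- the numerical data -/
theorem DU.nm (h : DU Φ X A B C l y v) (F : FrA Φ m u) (hm : 3 ≤ m) (hba : b ≤ a) (ha : a ≤ m) (hqp : q ≤ p) (hp : p ≤ m)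
    (hl : Sh u l a b) (hy : Sh u y p q) {S : ℕ} (hS : min a p + min a q + min b p + min b q = S) {Z K Y : ℝ}
    (hZ : Z = m * S - (a + b) * (p + q)) (hK : K = m * (a + 3 * b + a * (m - a) + b * (m - b)) - (a + b) ^ 2)
    (hY : Y = m * (p + 3 * q) - (p + q) ^ 2) : Nm A B C m Z K Y := by
  have hm0 : 0 < m := by omega
  have hls := h.sat.span l h.l_mem
  have hSr : (((min a p : ℕ) : ℝ) + ((min a q : ℕ) : ℝ) + ((min b p : ℕ) : ℝ) + ((min b q : ℕ) : ℝ)) = S := by
    rw [← hS]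
    push_cast
    ring
  have h1 := Sh.ip F hm0 ha (hba.trans ha) hp (hqp.trans hp) hls hl hy
  rw [hSr, ← hZ] at h1
  have h2 := Sh.cs F hm0 ha hba hls hl
  rw [← hK] at h2
  have h3 := Sh.ip F hm0 hp (hqp.trans hp) hp (hqp.trans hp) h.y_mem hy hy
  rw [min_self, min_eq_right hqp, min_eq_left hqp, min_self] at h3
  have h4 : (m : ℝ) * inner ℝ y y = Y := by
    rw [h3, hY]
    ring
  have hfr : ((finrank ℝ (Submodule.span ℝ (Φ : Set E)) : ℕ) : ℝ) = m - 1 := by
    rw [F.finrank (by omega), Nat.cast_sub (by omega)]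
    norm_num
  refine ⟨?_, ?_, ?_⟩
  · have := h.a_pos
    omega
  · rw [← h.ly, ← h1]
    ring
  · have h5 := h.idt
    rw [hfr, F.card] at h5
    rw [← h2, ← h4]
    linear_combination (m : ℝ) ^ 2 * h5

theorem DU.ex1 (h : DU Φ X A B C l y v) (F : FrA Φ m u) (hs : ∀ i j, i < j → (inner ℝ v (u j) : ℝ) < inner ℝ v (u i))
    (hm : 5 ≤ m) (hp : 2 ≤ p) (hpm : p + 2 ≤ m) (hl : Sh u l 2 0) (hy : Sh u y p 0) : ExcA A B C := by
  obtain ⟨k, rfl⟩ : ∃ k, m = p + k := ⟨m - p, by omega⟩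
  left
  refine ⟨p, k, hm, ?_⟩
  have hd := Sh.dim h.toWd'.dimH59 F hs (by omega) (Nat.zero_le _) hl
  refine case1 hp (by omega) (h.nm F (by omega) (Nat.zero_le _) (by omega) (Nat.zero_le _) (by omega) hl hy (S := 2) (by omega)
    ?_ ?_ ?_) ?_
  · push_cast; ring
  · push_cast; ring
  · push_cast; ring
  · rw [hd]
    simp

theorem DU.ex2 (h : DU Φ X A B C l y v) (F : FrA Φ m u) (hs : ∀ i j, i < j → (inner ℝ v (u j) : ℝ) < inner ℝ v (u i))
    (hm : 3 ≤ m) (hp : 1 ≤ p) (hpm : p + 1 ≤ m) (hl : Sh u l 1 1) (hy : Sh u y p 0) : ExcA A B C := by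
  obtain ⟨k, rfl⟩ : ∃ k, m = p + k := ⟨m - p, by omega⟩
  right; left
  refine ⟨p, k, hm, ?_⟩
  have hd := Sh.dim h.toWd'.dimH59 F hs (by omega) (le_refl 1) hl
  refine case2 hp (by omega) (h.nm F (by omega) (le_refl 1) (by omega) (Nat.zero_le _) (by omega) hl hy (S := 2) (by omega)
    ?_ ?_ ?_) ?_
  · push_cast; ring
  · push_cast; ring
  · push_cast; ring
  · rw [hd]
    simp

/-- the dimension of the exterior powers -/
theorem dim0 {n : ℕ} (hd : n * (m + 1) = (a + 1 - 0) * ((m + 1).choose 0 * (m + 1).choose (a + 1))) : n = m.choose a := by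
  have e1 := Nat.add_one_mul_choose_eq m a
  have e2 : (m + 1) * n = (m + 1) * m.choose a := by
    rw [e1, mul_comm, hd, Nat.choose_zero_right, Nat.sub_zero, one_mul]
    ring
  exact Nat.eq_of_mul_eq_mul_left (by omega) e2

theorem DU.ex3 (h : DU Φ X A B C l y v) (F : FrA Φ m u) (hs : ∀ i j, i < j → (inner ℝ v (u j) : ℝ) < inner ℝ v (u i))
    (ha : 2 ≤ a) (ham : a + 2 ≤ m) (h2 : 2 * a ≠ m) (hl : Sh u l a 0) (hy : Sh u y 2 0) : ExcA A B C := by
  obtain ⟨M, rfl⟩ : ∃ M, m = M + 2 := ⟨m - 2, by omega⟩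
  obtain ⟨i, rfl⟩ : ∃ i, a = i + 2 := ⟨a - 2, by omega⟩
  right; right; left
  refine ⟨M, i, by omega, by omega, ?_⟩
  have hd := Sh.dim h.toWd'.dimH59 F hs (by omega) (Nat.zero_le _) hl
  refine case3 (by omega) (h.nm F (by omega) (Nat.zero_le _) (by omega) (Nat.zero_le _) (by omega) hl hy (S := 2) (by omega)
    ?_ ?_ ?_) (dim0 hd)
  · push_cast; ring
  · push_cast; ring
  · push_cast; ring

theorem DU.ex4 (h : DU Φ X A B C l y v) (F : FrA Φ m u) (hs : ∀ i j, i < j → (inner ℝ v (u j) : ℝ) < inner ℝ v (u i))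
    (ha : 2 ≤ a) (ham : a + 2 ≤ m) (h2 : 2 * a ≠ m) (hl : Sh u l a 0) (hy : Sh u y (m - 1) 1) : ExcA A B C := by
  obtain ⟨M, rfl⟩ : ∃ M, m = M + 2 := ⟨m - 2, by omega⟩
  obtain ⟨i, rfl⟩ : ∃ i, a = i + 2 := ⟨a - 2, by omega⟩
  right; right; right; left
  refine ⟨M, i, by omega, by omega, ?_⟩
  have hd := Sh.dim h.toWd'.dimH59 F hs (by omega) (Nat.zero_le _) hl
  have e1 : M + 2 - 1 = M + 1 := by omega
  rw [e1] at hy
  refine case4 (by omega) (h.nm F (by omega) (Nat.zero_le _) (by omega) (show 1 ≤ M + 1 by omega) (by omega) hl hy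
    (S := i + 3) (by omega) ?_ ?_ ?_) (dim0 hd)
  · push_cast; ring
  · push_cast; ring
  · push_cast; ring

theorem DU.ex5 (h : DU Φ X A B C l y v) (F : FrA Φ m u) (hs : ∀ i j, i < j → (inner ℝ v (u j) : ℝ) < inner ℝ v (u i))
    (ha : 2 ≤ a) (ham : a + 2 ≤ m) (h2 : 2 * a ≠ m) (hl : Sh u l a 0) (hy : Sh u y 1 1) : ExcA A B C := by
  obtain ⟨M, rfl⟩ : ∃ M, m = M + 1 := ⟨m - 1, by omega⟩
  obtain ⟨i, rfl⟩ : ∃ i, a = i + 1 := ⟨a - 1, by omega⟩
  right; right; right; right; left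
  refine ⟨M, i, by omega, by omega, by omega, ?_⟩
  have hd := Sh.dim h.toWd'.dimH59 F hs (by omega) (Nat.zero_le _) hl
  refine case5 (by omega) (h.nm F (by omega) (Nat.zero_le _) (by omega) (le_refl 1) (by omega) hl hy
    (S := 2) (by omega) ?_ ?_ ?_) (by omega) (dim0 hd)
  · push_cast; ring
  · push_cast; ring
  · push_cast; ring

theorem DU.ex6 (h : DU Φ X A B C l y v) (F : FrA Φ m u) (hs : ∀ i j, i < j → (inner ℝ v (u j) : ℝ) < inner ℝ v (u i))
    (hm : 3 ≤ m) (hb : 1 ≤ b) (hba : b ≤ a) (ham : a + 1 ≤ m) (h2 : a + b ≠ m) (hl : Sh u l a b) (hy : Sh u y 1 0) :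
    ExcA A B C := by
  obtain ⟨M, rfl⟩ : ∃ M, m = M + 1 := ⟨m - 1, by omega⟩
  have hd := Sh.dim h.toWd'.dimH59 F hs (by omega) hba hl
  rcases Nat.lt_or_ge b 2 with h1 | h1
  · obtain rfl : b = 1 := by omega
    obtain ⟨j, rfl⟩ : ∃ j, a = j + 1 := ⟨a - 1, by omega⟩
    right; right; right; right; right; left
    refine ⟨M, j, by omega, by omega, ?_⟩
    refine case6 (by omega) (h.nm F (by omega) hba (by omega) (Nat.zero_le _) (by omega) hl hy
      (S := 2) (by omega) ?_ ?_ ?_) (by omega) ?_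
    · push_cast; ring
    · push_cast; ring
    · push_cast; ring
    · have e1 : M + 1 + 1 = M + 2 := rfl
      rw [e1, Nat.choose_one_right] at hd
      exact hd
  · obtain ⟨i, rfl⟩ : ∃ i, b = i + 2 := ⟨b - 2, by omega⟩
    obtain ⟨j, rfl⟩ : ∃ j, a = j + 2 := ⟨a - 2, by omega⟩
    right; right; right; right; right; right
    refine ⟨M, i, j, by omega, by omega, by omega, ?_⟩
    refine case7 (by omega) (by omega) (h.nm F (by omega) hba (by omega) (Nat.zero_le _) (by omega) hl hy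
      (S := 2) (by omega) ?_ ?_ ?_) ?_
    · push_cast; ring
    · push_cast; ring
    · push_cast; ring
    · have e1 : j + 2 + 1 - (i + 2) = j + 1 - i := by omega
      rw [e1] at hd
      exact hd

/-- the standard module -/
theorem DU.std (h : DU Φ X A B C l y v) (F : FrA Φ m u) (hm : 3 ≤ m) (hl : Sh u l 1 0) : TypeS Φ X := by
  have hm0 : 0 < m := by omega
  refine typeS_of3 F hm h.sat h.l_mem h.l_max (i := ⟨0, hm0⟩) ?_
  refine F.eq_of (h.sat.span l h.l_mem) (u_span3 F hm0 _) fun i => ?_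
  obtain ⟨t, ht⟩ := hl
  have h1 := Sh.const F hm0 (by omega) (Nat.zero_le _) ht
  have h2 : t = -(1 / (m : ℝ)) := by
    have : (m : ℝ) ≠ 0 := by positivity
    field_simp
    push_cast at h1
    linarith
  rw [ht, F.gram, h2]
  unfold bt
  rw [if_neg (Nat.not_lt_zero _)]
  by_cases h3 : (i : ℕ) = 0
  · rw [if_pos (by omega), if_pos (Fin.ext h3.symm)]
    ring
  · rw [if_neg (by omega), if_neg (fun h4 => h3 (by rw [← h4]))]
    ring

/-- **Type `A`.** -/
theorem typeAU (h : DU Φ X A B C l y v) (F0 : FrA Φ m u) (hm : 3 ≤ m) : TypeS Φ X ∨ ExcA A B C := by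
  obtain ⟨u, F, hs, a, b, p, q, hba, ha1, ham, hqp, hp1, hpm, hl, hy, hn1, hn2, hG⟩ := h.red F0 hm
  have F' := flip_frA F
  have hs' := flip_sorted hs
  have fl0 : ∀ {w : E} {c : ℕ}, c ≤ m → Sh u w c 0 → Sh (fun i => -u (Fin.rev i)) w (m - c) 0 := fun hc hw =>
    Sh.shift (by simpa using Sh.flip hc (Nat.zero_le _) hw)
  rcases Nat.eq_zero_or_pos b with hb | hb
  · subst hb
    have hn2' := hn2 rfl
    rcases Nat.eq_zero_or_pos q with hq | hq
    · subst hq
      -- `b = 0`, `q = 0`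
      have hc : a = 1 ∨ a = m - 1 ∨ (2 ≤ a ∧ a + 2 ≤ m ∧ 2 ≤ p ∧ p + 2 ≤ m ∧ (a = 2 ∨ a = m - 2 ∨ p = 2 ∨ p = m - 2)) := by
        omega
      rcases hc with hc | hc | ⟨h1, h2, h3, h4, hc⟩
      · subst hc
        exact Or.inl (h.std F hm hl)
      · have := fl0 ham.le hl
        rw [hc, show m - (m - 1) = 1 by omega] at this
        exact Or.inl (h.std F' hm this)
      · right
        rcases hc with hc | hc | hc | hc
        · subst hc
          exact h.ex1 F hs (by omega) h3 h4 hl hy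
        · have e1 := fl0 ham.le hl
          rw [hc, show m - (m - 2) = 2 by omega] at e1
          exact h.ex1 F' hs' (by omega) (p := m - p) (by omega) (by omega) e1 (fl0 hpm.le hy)
        · subst hc
          exact h.ex3 F hs h1 h2 hn2' hl hy
        · have e1 := fl0 hpm.le hy
          rw [hc, show m - (m - 2) = 2 by omega] at e1
          exact h.ex3 F' hs' (a := m - a) (by omega) (by omega) (by omega) (fl0 ham.le hl) e1
    · -- `b = 0`, `q ≥ 1`
      have hc : a = 1 ∨ a = m - 1 ∨ (2 ≤ a ∧ a + 2 ≤ m ∧ ((p = 1 ∧ q = 1) ∨ (p = m - 1 ∧ q = m - 1) ∨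
          (p = m - 1 ∧ q = 1))) := by
        omega
      rcases hc with hc | hc | ⟨h1, h2, hc⟩
      · subst hc
        exact Or.inl (h.std F hm hl)
      · have := fl0 ham.le hl
        rw [hc, show m - (m - 1) = 1 by omega] at this
        exact Or.inl (h.std F' hm this)
      · right
        rcases hc with ⟨hc1, hc2⟩ | ⟨hc1, hc2⟩ | ⟨hc1, hc2⟩
        · subst hc1
          subst hc2
          exact h.ex5 F hs h1 h2 hn2' hl hy
        · have e1 := Sh.flip hpm.le (hqp.trans hpm.le) hy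
          rw [hc1, hc2, show m - (m - 1) = 1 by omega] at e1
          exact h.ex5 F' hs' (a := m - a) (by omega) (by omega) (by omega) (fl0 ham.le hl) e1
        · rw [hc1, hc2] at hy
          exact h.ex4 F hs h1 h2 hn2' hl hy
  · have hn1' := hn1 (by omega)
    have hq : q = 0 := by
      by_contra hq
      omega
    subst hq
    have hc : p = 1 ∨ p = m - 1 ∨ (a = 1 ∧ b = 1) ∨ (a = m - 1 ∧ b = m - 1) := by
      omega
    right
    rcases hc with hc | hc | ⟨hc1, hc2⟩ | ⟨hc1, hc2⟩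
    · subst hc
      exact h.ex6 F hs hm hb hba (by omega) hn1' hl hy
    · have e1 := fl0 hpm.le hy
      rw [hc, show m - (m - 1) = 1 by omega] at e1
      exact h.ex6 F' hs' hm (b := m - a) (a := m - b) (by omega) (by omega) (by omega) (by omega)
        (Sh.flip ham.le (hba.trans ham.le) hl) e1
    · subst hc1
      subst hc2
      exact h.ex2 F hs hm hp1 (by omega) hl hy
    · have e1 := Sh.flip ham.le (hba.trans ham.le) hl
      rw [hc1, hc2, show m - (m - 1) = 1 by omega] at e1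
      exact h.ex2 F' hs' hm (p := m - p) (by omega) (by omega) e1 (fl0 hpm.le hy)

end L2
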